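import Pool.Agent.Run7.h885.FS.One
import Pool.Agent.H934R3.D74.Asm

/-!
The limits of the trace of the exploration path and fixed sets: upper bound by the content.
-/

namespace Pool.Agent.Run7.h885.FS

open H934E MeasureTheory TopologicalSpace Filter Topology Set Metric
open scoped ENNReal

theorem content_trace (R : Rect) {Q : Set ℂ} (hQ : IsCompact Q) (hQD : Q ⊆ R.D) :
    ∃ C : ℝ, 0 < C ∧ ∀ (δ : ℕ → ℝ) (hδ : ∀ i, 0 < δ i), Tendsto δ atTop (𝓝 0) →
      ∀ μ : ProbabilityMeasure (NonemptyCompacts ℂ),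
        Tendsto (fun i => R.law (hδ i)) atTop (𝓝 μ) → ∀ S ⊆ Q,
          (μ : Measure (NonemptyCompacts ℂ)) {K | ((K : Set ℂ) ∩ S).Nonempty} ≤
            ENNReal.ofReal C * content (1/4) S := by
  rcases Q.eq_empty_or_nonempty with h0 | hne
  · refine ⟨1, one_pos, ?_⟩
    intro δ hδ hδ0 μ hμ S hS
    have hS0 : S = ∅ := by rw [h0] at hS; exact subset_empty_iff.mp hS
    have : {K : NonemptyCompacts ℂ | ((K : Set ℂ) ∩ S).Nonempty} = ∅ := by
      ext K; simp [hS0]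
    rw [this, measure_empty]
    exact zero_le
  obtain ⟨c0, C0, -, hC0, hh⟩ := H934F.hit74 H985T.st_A H934SL.st_L
  obtain ⟨z0, hz0, hmin0⟩ := hQ.exists_isMinOn hne (rd_cont R).continuousOn
  have hd0 := rd_pos R (hQD hz0)
  set d := R.rd z0 with hdd
  refine ⟨(C0 + 1) * (1 / d) ^ (1/4 : ℝ), by positivity, ?_⟩
  set C := (C0 + 1) * (1 / d) ^ (1/4 : ℝ) with hC
  have hCpos : 0 < C := by positivity
  intro δ hδ hδ0 μ hμ S hS
  have hit := (hh R δ hδ hδ0 μ hμ).2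
  have e0 : ∀ r : ℝ, 0 < r → C * r ^ (1/4 : ℝ) = (C0 + 1) * (r / d) ^ (1/4 : ℝ) := by
    intro r hr
    rw [hC, mul_assoc, ← Real.mul_rpow (by positivity) hr.le]
    congr 2; ring
  have h1 : ∀ z ∈ Q, ∀ r : ℝ, 0 < r →
      (μ : Measure (NonemptyCompacts ℂ)) {K | ((K : Set ℂ) ∩ closedBall z r).Nonempty} ≤
        ENNReal.ofReal (C * r ^ (1/4 : ℝ)) := by
    intro z hz r hr
    rw [e0 r hr]
    rcases le_or_gt r d with hrd | hrd
    · have h2 := hit z r d hr hrd ((ball_subset_ball (hmin0 hz)).trans (ball_rd R z))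
      rw [← ofReal_measureReal]
      apply ENNReal.ofReal_le_ofReal
      refine h2.trans ?_
      have : 0 ≤ (r / d) ^ (1/4 : ℝ) := by positivity
      linarith
    · refine prob_le_one.trans ?_
      rw [← ENNReal.ofReal_one]
      apply ENNReal.ofReal_le_ofReal
      have h3 : 1 ≤ (r / d) ^ (1/4 : ℝ) :=
        Real.one_le_rpow (by rw [one_le_div hd0]; exact hrd.le) (by norm_num)
      nlinarith
  -- one set
  have h2 : ∀ V : Set ℂ,
      (μ : Measure (NonemptyCompacts ℂ)) {K | ((K : Set ℂ) ∩ (S ∩ V)).Nonempty} ≤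
        ENNReal.ofReal C * (ediam V) ^ (1/4 : ℝ) := by
    intro V
    rcases (S ∩ V).eq_empty_or_nonempty with hV | ⟨z, hzS, hzV⟩
    · have : {K : NonemptyCompacts ℂ | ((K : Set ℂ) ∩ (S ∩ V)).Nonempty} = ∅ := by
        ext K; simp [hV]
      rw [this, measure_empty]
      exact zero_le
    by_cases hVt : ediam V = ⊤
    · rw [hVt, ENNReal.top_rpow_of_pos (by norm_num), ENNReal.mul_top
        (ENNReal.ofReal_pos.mpr hCpos).ne']
      exact le_top
    set ρ := (ediam V).toReal with hρ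
    have hρ0 : 0 ≤ ρ := ENNReal.toReal_nonneg
    have e1 : ediam V = ENNReal.ofReal ρ := (ENNReal.ofReal_toReal hVt).symm
    have h3 : ∀ r : ℝ, ρ < r →
        (μ : Measure (NonemptyCompacts ℂ)) {K | ((K : Set ℂ) ∩ (S ∩ V)).Nonempty} ≤
          ENNReal.ofReal (C * r ^ (1/4 : ℝ)) := by
      intro r hr
      refine (measure_mono ?_).trans (h1 z (hS hzS) r (hρ0.trans_lt hr))
      rintro K ⟨w, hwK, -, hwV⟩
      refine ⟨w, hwK, ?_⟩
      rw [mem_closedBall]
      have h4 : edist w z ≤ ENNReal.ofReal ρ := e1 ▸ edist_le_ediam_of_mem hwV hzV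
      rw [edist_dist, ENNReal.ofReal_le_ofReal_iff hρ0] at h4
      linarith
    have h4 : Tendsto (fun r : ℝ => ENNReal.ofReal (C * r ^ (1/4 : ℝ))) (𝓝[>] ρ)
        (𝓝 (ENNReal.ofReal (C * ρ ^ (1/4 : ℝ)))) := by
      apply ENNReal.tendsto_ofReal
      have h5 : ContinuousAt (fun r : ℝ => C * r ^ (1/4 : ℝ)) ρ :=
        (Real.continuousAt_rpow_const _ _ (Or.inr (by norm_num))).const_mul C
      exact h5.tendsto.mono_left nhdsWithin_le_nhds
    have h6 : (μ : Measure (NonemptyCompacts ℂ)) {K | ((K : Set ℂ) ∩ (S ∩ V)).Nonempty} ≤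
        ENNReal.ofReal (C * ρ ^ (1/4 : ℝ)) := by
      refine ge_of_tendsto h4 ?_
      filter_upwards [self_mem_nhdsWithin] with r hr
      exact h3 r hr
    refine h6.trans (le_of_eq ?_)
    rw [e1, ENNReal.ofReal_rpow_of_nonneg hρ0 (by norm_num), ← ENNReal.ofReal_mul hCpos.le]
  have h3 : ∀ U : ℕ → Set ℂ, S ⊆ ⋃ n, U n →
      (μ : Measure (NonemptyCompacts ℂ)) {K | ((K : Set ℂ) ∩ S).Nonempty} ≤
        ENNReal.ofReal C * ∑' n, (ediam (U n)) ^ (1/4 : ℝ) := by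
    intro U hU
    have h4 : {K : NonemptyCompacts ℂ | ((K : Set ℂ) ∩ S).Nonempty} ⊆
        ⋃ n, {K : NonemptyCompacts ℂ | ((K : Set ℂ) ∩ (S ∩ U n)).Nonempty} := by
      rintro K ⟨w, hwK, hwS⟩
      obtain ⟨n, hn⟩ := mem_iUnion.mp (hU hwS)
      exact mem_iUnion.mpr ⟨n, w, hwK, hwS, hn⟩
    refine (measure_mono h4).trans ((measure_iUnion_le _).trans ?_)
    rw [← ENNReal.tsum_mul_left]
    exact ENNReal.tsum_le_tsum fun n => h2 (U n)
  have hC0' : ENNReal.ofReal C ≠ 0 := (ENNReal.ofReal_pos.mpr hCpos).ne'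
  unfold content
  rw [ENNReal.mul_iInf_of_ne hC0' ENNReal.ofReal_ne_top]
  refine le_iInf fun U => ?_
  rw [ENNReal.mul_iInf_of_ne hC0' ENNReal.ofReal_ne_top]
  exact le_iInf fun hU => h3 U hU

end Pool.Agent.Run7.h885.FS
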