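import Pool.Agent.Run7.h885.FS.Meas

/-!
Independent random compact sets and a fixed set: from one set to several sets.
-/

namespace Pool.Agent.Run7.h885.FS

open MeasureTheory Set Metric Filter Topology TopologicalSpace
open scoped ENNReal NNReal

variable {Ω : Type*}

theorem II_cons {k : ℕ} (S : Set ℂ) (G : Ω → NonemptyCompacts ℂ) (p : Fin (k + 1) → Ω) :
    II S (fun i => G (p i)) =
      II S (fun j : Fin k => G (p (Fin.succAbove 0 j))) ∩ (G (p 0) : Set ℂ) := by
  unfold II
  ext z
  simp only [mem_inter_iff, mem_iInter, Fin.zero_succAbove]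
  rw [Fin.forall_fin_succ]
  tauto

theorem IsSigmaCompact.inter_compacts {ι : Type*} {S : Set ℂ} (hS : IsSigmaCompact S)
    (K : ι → NonemptyCompacts ℂ) : IsSigmaCompact (II S K) := by
  obtain ⟨T, hT, rfl⟩ := hS
  rw [II_iUnion]
  exact isSigmaCompact_iUnion_of_isCompact _ fun n =>
    (hT n).inter_right (isClosed_iInter fun i => (K i).isCompact.isClosed)

/-- all the sets together -/
def ops {k : ℕ} (G : Ω → NonemptyCompacts ℂ) (z : (Fin k → Ω) × Ω) :
    Option (Fin k) → NonemptyCompacts ℂ := fun o => o.elim (G z.2) (fun j => G (z.1 j))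

theorem II_ops {k : ℕ} (S : Set ℂ) (G : Ω → NonemptyCompacts ℂ) (z : (Fin k → Ω) × Ω) :
    II S (ops G z) = II S (fun j : Fin k => G (z.1 j)) ∩ (G z.2 : Set ℂ) := by
  unfold II ops
  ext w
  simp only [mem_inter_iff, mem_iInter, Option.forall, Option.elim]
  tauto

variable [MeasurableSpace Ω]

/-- upper and lower bound for one random compact set -/
structure Codim (G : Ω → NonemptyCompacts ℂ) (D : Set ℂ) (q : ℝ≥0∞) (μ : Measure Ω) : Prop where
  up : ∀ S : Set ℂ, S ⊆ D → ∀ᵐ ω ∂μ, dimH (S ∩ (G ω : Set ℂ)) ≤ dimH S - q ∧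
    (dimH S < q → S ∩ (G ω : Set ℂ) = ∅)
  low : ∀ S : Set ℂ, IsSigmaCompact S → S ⊆ D → ∀ a : ℝ≥0∞,
    (∀ᵐ ω ∂μ, dimH (S ∩ (G ω : Set ℂ)) ≤ a) → dimH S ≤ a + q

variable [MeasurableSpace (NonemptyCompacts ℂ)]

theorem measurable_ops {k : ℕ} {G : Ω → NonemptyCompacts ℂ} (hG : Measurable G) :
    Measurable (ops (k := k) G) := by
  rw [measurable_pi_iff]
  intro o
  cases o with
  | none => exact hG.comp measurable_snd
  | some j => exact hG.comp ((measurable_pi_apply j).comp measurable_fst)

theorem codim_pi [BorelSpace (NonemptyCompacts ℂ)] {G : Ω → NonemptyCompacts ℂ}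
    (hG : Measurable G) {D : Set ℂ} {q : ℝ≥0∞} {k : ℕ} {μ : Fin k → Measure Ω} (hμp : ∀ i, IsProbabilityMeasure (μ i))
    (hμ : ∀ i, Codim G D q (μ i)) {S : Set ℂ} (hS : IsSigmaCompact S) (hSD : S ⊆ D) :
    (∀ᵐ p ∂Measure.pi μ, dimH (II S (fun i => G (p i))) ≤ dimH S - k * q ∧
      (dimH S < k * q → II S (fun i => G (p i)) = ∅)) ∧
    ∀ a : ℝ≥0∞, (∀ᵐ p ∂Measure.pi μ, dimH (II S (fun i => G (p i))) ≤ a) →
      dimH S ≤ a + k * q := by
  induction k with
  | zero =>
    constructor
    · refine Eventually.of_forall fun p => ?_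
      simp only [Nat.cast_zero, zero_mul, tsub_zero, not_lt_zero, IsEmpty.forall_iff, and_true]
      exact dimH_mono inter_subset_left
    · intro a ha
      obtain ⟨p, hp⟩ := ha.exists
      simpa [II] using hp
  | succ k ih =>
    obtain ⟨ih1, ih2⟩ := ih (μ := fun j => μ (Fin.succAbove 0 j)) (fun j => hμp _) (fun j => hμ _)
    set π : Measure (Fin k → Ω) := Measure.pi (fun j => μ (Fin.succAbove 0 j)) with hπ
    have hp0 := hμp 0
    have hmp := measurePreserving_piFinSuccAbove (α := fun _ : Fin (k + 1) => Ω) μ 0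
    set e := MeasurableEquiv.piFinSuccAbove (fun _ : Fin (k + 1) => Ω) 0 with he
    -- transfer
    have hsw : MeasurePreserving Prod.swap (π.prod (μ 0)) ((μ 0).prod π) :=
      Measure.measurePreserving_swap
    have hsw' : MeasurePreserving Prod.swap ((μ 0).prod π) (π.prod (μ 0)) :=
      Measure.measurePreserving_swap
    have hfwd : MeasurePreserving (fun p => (e p).swap) (Measure.pi μ) (π.prod (μ 0)) :=
      hsw'.comp hmp
    have hbwd : MeasurePreserving (fun z => e.symm (Prod.swap z)) (π.prod (μ 0))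
        (Measure.pi μ) := (MeasurePreserving.symm e hmp).comp hsw
    have hval : ∀ p : Fin (k + 1) → Ω, II S (ops G (e p).swap) = II S (fun i => G (p i)) := by
      intro p
      rw [II_ops, II_cons]
      rfl
    have hval2 : ∀ z : (Fin k → Ω) × Ω,
        II S (fun i => G ((e.symm (Prod.swap z)) i)) = II S (ops G z) := by
      intro z
      rw [← hval, MeasurableEquiv.apply_symm_apply, Prod.swap_swap]
    constructor
    · have hcast : ((k + 1 : ℕ) : ℝ≥0∞) * q = k * q + q := by push_cast; ring
      have hm1 : MeasurableSet {z : (Fin k → Ω) × Ω |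
          dimH (II S (ops G z)) ≤ dimH S - ((k + 1 : ℕ) : ℝ≥0∞) * q} :=
        (measurableSet_dim hS (dimH S - ((k + 1 : ℕ) : ℝ≥0∞) * q)).preimage (measurable_ops hG)
      have hm2 : MeasurableSet {z : (Fin k → Ω) × Ω | II S (ops G z) = ∅} :=
        (measurableSet_empty hS).preimage (measurable_ops hG)
      have h1 : ∀ᵐ z ∂(π.prod (μ 0)),
          dimH (II S (ops G z)) ≤ dimH S - ((k + 1 : ℕ) : ℝ≥0∞) * q := by
        rw [Measure.ae_prod_iff_ae_ae hm1]
        filter_upwards [ih1] with y hy
        filter_upwards [(hμ 0).up (II S (fun j : Fin k => G (y j)))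
          (inter_subset_left.trans hSD)] with x hx
        rw [II_ops]
        refine hx.1.trans ?_
        rw [hcast, ← tsub_tsub]
        exact tsub_le_tsub_right hy.1 q
      have h2 : dimH S < ((k + 1 : ℕ) : ℝ≥0∞) * q → ∀ᵐ z ∂(π.prod (μ 0)),
          II S (ops G z) = ∅ := by
        intro hlt
        rw [Measure.ae_prod_iff_ae_ae hm2]
        filter_upwards [ih1] with y hy
        filter_upwards [(hμ 0).up (II S (fun j : Fin k => G (y j)))
          (inter_subset_left.trans hSD)] with x hx
        rw [II_ops]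
        apply hx.2
        by_cases hc : dimH S < k * q
        · rw [hy.2 hc, dimH_empty]
          by_contra h0
          have hq0 : q = 0 := by simpa using h0
          rw [hq0] at hc
          simp at hc
        · refine hy.1.trans_lt ?_
          rw [hcast] at hlt
          exact ENNReal.sub_lt_of_lt_add (not_lt.mp hc) (by rwa [add_comm] at hlt)
      have h1' := hfwd.quasiMeasurePreserving.ae h1
      by_cases hlt : dimH S < ((k + 1 : ℕ) : ℝ≥0∞) * q
      · have h2' := hfwd.quasiMeasurePreserving.ae (h2 hlt)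
        filter_upwards [h1', h2'] with p hp1 hp2
        rw [hval] at hp1 hp2
        exact ⟨hp1, fun _ => hp2⟩
      · filter_upwards [h1'] with p hp1
        rw [hval] at hp1
        exact ⟨hp1, fun h => absurd h hlt⟩
    · intro a ha
      have h1 := hbwd.quasiMeasurePreserving.ae ha
      have h2 := Measure.ae_ae_of_ae_prod h1
      have h3 : ∀ᵐ y ∂π, dimH (II S (fun j : Fin k => G (y j))) ≤ a + q := by
        filter_upwards [h2] with y hy
        apply (hμ 0).low _ (IsSigmaCompact.inter_compacts hS _) (inter_subset_left.trans hSD)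
        filter_upwards [hy] with x hx
        rw [hval2, II_ops] at hx
        exact hx
      have h4 := ih2 (a + q) h3
      refine h4.trans (le_of_eq ?_)
      push_cast; ring

end Pool.Agent.Run7.h885.FS
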