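import Pool.Agent.Run7.h885.FS.One
import Pool.Agent.Run7.h885.FS.Content
import Pool.Agent.Run7.h885.FS.Multi
import Pool.Agent.H443R3.BT.Fix
import Pool.Agent.Results.MP_fe58d8_pr.UniformDimension

/-!
The limits of the exploration path (as a curve) and fixed sets.
-/

namespace Pool.Agent.Run7.h885.FS

open H984N MeasureTheory TopologicalSpace Filter Topology Set Metric
open scoped ENNReal

theorem coe_rgX (p : X) : (H443B.rgX p : Set ℂ) = range p.1 := rfl

theorem measurable_rgX : Measurable H443B.rgX := H443B.rgX_cont.measurable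

/-- the curve hits `S` -/
theorem hit_iff (S : Set ℂ) (p : X) :
    ((H443B.rgX p : Set ℂ) ∩ S).Nonempty ↔ ∃ s, p.1 s ∈ S := by
  constructor
  · rintro ⟨z, ⟨s, rfl⟩, hz⟩
    exact ⟨s, hz⟩
  · rintro ⟨s, hs⟩
    exact ⟨p.1 s, ⟨s, rfl⟩, hs⟩

theorem codim_curve (R : Rect) {μ : ProbabilityMeasure X} (hμ : IsLim R μ) :
    Codim H443B.rgX R.D (1/4) (μ : Measure X) := by
  obtain ⟨δ, hδ, hδ0, hlim⟩ := hμ
  have ht := H443B.limit_trace R hδ hδ0 hlim
  constructor
  · intro S hS
    have h3 := H443B.fixed_trace (H443B.toE R) hδ hδ0 ht (H443B.isOpen_D R) hS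
    rw [ProbabilityMeasure.toMeasure_map] at h3
    filter_upwards [ae_of_ae_map H443B.rgX_cont.measurable.aemeasurable h3] with p hp
    rw [inter_comm]
    exact hp
  · intro S hS hSD a ha
    apply ess_trace (H443B.toE R) hδ hδ0 ht hS hSD
    rw [ProbabilityMeasure.toMeasure_map]
    have hm : MeasurableSet {K : NonemptyCompacts ℂ | dimH (S ∩ (K : Set ℂ)) ≤ a} := by
      have h1 := measurableSet_dim (ι := Unit) hS a
      have h2 : Measurable fun K : NonemptyCompacts ℂ => (fun _ : Unit => K) := by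
        rw [measurable_pi_iff]; exact fun _ => measurable_id
      have h3 := h2 h1
      have h4 : (fun K : NonemptyCompacts ℂ => (fun _ : Unit => K)) ⁻¹'
          {K : Unit → NonemptyCompacts ℂ | dimH (II S K) ≤ a} =
          {K : NonemptyCompacts ℂ | dimH (S ∩ (K : Set ℂ)) ≤ a} := by
        ext K
        simp only [II, mem_preimage, mem_ofPred_eq, iInter_const]
      rw [← h4]
      exact h3
    exact (ae_map_iff H443B.rgX_cont.measurable.aemeasurable hm).mpr ha

theorem essSup_eq {Ω : Type*} [MeasurableSpace Ω] {μ : Measure Ω} {f : Ω → ℝ≥0∞} {b : ℝ≥0∞}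
    (h1 : ∀ᵐ x ∂μ, f x ≤ b) (h2 : ∀ a, (∀ᵐ x ∂μ, f x ≤ a) → b ≤ a) : essSup f μ = b :=
  le_antisymm (essSup_le_of_ae_le b h1) (h2 _ (ENNReal.ae_le_essSup f))

theorem isSigmaCompact_D (R : Rect) : IsSigmaCompact R.D := by
  obtain ⟨F, hF1, -, hF3, -⟩ := (H443B.isOpen_D R).exists_iUnion_isClosed
  rw [← hF3]
  exact isSigmaCompact_iUnion _ fun n =>
    isSigmaCompact_univ.of_isClosed_subset (hF1 n) (subset_univ _)

theorem dimH_D (R : Rect) : dimH R.D = 2 := by
  have h1 : (interior R.D).Nonempty := by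
    rw [(H443B.isOpen_D R).interior_eq]
    refine ⟨⟨0, R.H / 2⟩, ?_⟩
    have h2 := R.hH
    exact ⟨by simpa using R.hA, by simpa using R.hB, by simpa using h2, by
      change R.H / 2 < R.H
      linarith⟩
  rw [Real.dimH_of_nonempty_interior h1, Complex.finrank_real_complex]
  norm_num

/-- the capacity and content bounds -/
theorem cap_curve (R : Rect) {Q : Set ℂ} (hQ : IsCompact Q) (hQD : Q ⊆ R.D) :
    ∃ c C : ℝ, 0 < c ∧ 0 < C ∧ ∀ μ : ProbabilityMeasure X, IsLim R μ → ∀ S ⊆ Q,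
      (IsCompact S → ∀ ν : Measure ℂ, IsFiniteMeasure ν → ν Sᶜ = 0 →
        ENNReal.ofReal c * ν S ^ 2 / energy (1/4) ν ≤ (μ : Measure X) {p | ∃ s, p.1 s ∈ S}) ∧
      (μ : Measure X) {p | ∃ s, p.1 s ∈ S} ≤ ENNReal.ofReal C * content (1/4) S := by
  obtain ⟨c, hc, h1⟩ := cap_trace (H443B.toE R) hQ hQD
  obtain ⟨C, hC, h2⟩ := content_trace (H443B.toE R) hQ hQD
  refine ⟨c, C, hc, hC, ?_⟩
  rintro μ ⟨δ, hδ, hδ0, hlim⟩ S hSQ
  have ht := H443B.limit_trace R hδ hδ0 hlim
  have hpre : H443B.rgX ⁻¹' {K : NonemptyCompacts ℂ | ((K : Set ℂ) ∩ S).Nonempty} =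
      {p : X | ∃ s, p.1 s ∈ S} := by
    ext p
    exact hit_iff S p
  constructor
  · intro hS ν hν hνS
    have h3 := h1 δ hδ hδ0 _ ht S hSQ hS ν hν hνS
    rw [ProbabilityMeasure.toMeasure_map, Measure.map_apply measurable_rgX
      (isClosed_hit hS.isClosed).measurableSet, hpre] at h3
    have e : ν univ = ν S := by
      have h4 := measure_add_measure_compl (μ := ν) hS.isClosed.measurableSet
      rw [hνS, add_zero] at h4
      exact h4.symm
    rw [e] at h3
    exact h3
  · have h3 := h2 δ hδ hδ0 _ ht S hSQ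
    refine le_trans ?_ h3
    rw [ProbabilityMeasure.toMeasure_map, ← hpre]
    exact Measure.le_map_apply measurable_rgX.aemeasurable _

theorem four_seven : (4 / 7 : ℝ≥0∞) * (7 / 4) = 1 := by
  have a1 : (4 / 7 : ℝ≥0∞) = ENNReal.ofReal (4 / 7) := by
    rw [ENNReal.ofReal_div_of_pos (by norm_num)]; norm_num
  have a2 : (7 / 4 : ℝ≥0∞) = ENNReal.ofReal (7 / 4) := by
    rw [ENNReal.ofReal_div_of_pos (by norm_num)]; norm_num
  rw [a1, a2, ← ENNReal.ofReal_mul (by norm_num)]
  norm_num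

/-- the dimension of the set of times -/
theorem times (R : Rect) {μ : ProbabilityMeasure X} (hμ : IsLim R μ) (S : Set ℂ) :
    ∀ᵐ p ∂(μ : Measure X), dimH {s : unitInterval | p.1 s ∈ S} = 4 / 7 * dimH (S ∩ range p.1) := by
  obtain ⟨δ, hδ, hδ0, hlim⟩ := hμ
  filter_upwards [(Results.MP_fe58d8_pr.UniformDimension.result R).2 δ hδ hδ0 μ hlim] with p hp
  have e : p.1 '' {s : unitInterval | p.1 s ∈ S} = S ∩ range p.1 := by
    rw [inter_comm]
    exact image_preimage_eq_range_inter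
  have h4 := hp {s : unitInterval | p.1 s ∈ S}
  rw [e] at h4
  rw [h4, ← mul_assoc, four_seven, one_mul]

/-- one curve -/
theorem one_curve (R : Rect) {μ : ProbabilityMeasure X} (hμ : IsLim R μ) {S : Set ℂ}
    (hS : IsSigmaCompact S) (hSD : S ⊆ R.D) :
    essSup (fun p : X => dimH (S ∩ range p.1)) (μ : Measure X) = dimH S - 1/4 ∧
    essSup (fun p : X => dimH {s : unitInterval | p.1 s ∈ S}) (μ : Measure X) =
      4 / 7 * (dimH S - 1/4) := by
  have hc := codim_curve R hμ
  have h1 : essSup (fun p : X => dimH (S ∩ range p.1)) (μ : Measure X) = dimH S - 1/4 := by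
    apply essSup_eq
    · filter_upwards [hc.up S hSD] with p hp
      exact hp.1
    · intro a ha
      rw [tsub_le_iff_right]
      exact hc.low S hS hSD a ha
  refine ⟨h1, ?_⟩
  rw [essSup_congr_ae (times R hμ S), ENNReal.essSup_const_mul, h1]

/-- several curves -/
theorem many_curves (R : Rect) {k : ℕ} {μ : Fin k → ProbabilityMeasure X}
    (hμ : ∀ i, IsLim R (μ i)) {S : Set ℂ} (hS : IsSigmaCompact S) (hSD : S ⊆ R.D) :
    essSup (fun p : Fin k → X => dimH (S ∩ ⋂ i, range (p i).1))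
      (Measure.pi fun i => (μ i : Measure X)) = dimH S - k / 4 ∧
    (dimH S < k / 4 → ∀ᵐ p ∂(Measure.pi fun i => (μ i : Measure X)),
      S ∩ ⋂ i, range (p i).1 = ∅) ∧
    (k / 4 < dimH S → 0 < (Measure.pi fun i => (μ i : Measure X))
      {p | (S ∩ ⋂ i, range (p i).1).Nonempty}) := by
  obtain ⟨h1, h2⟩ := codim_pi measurable_rgX (μ := fun i => (μ i : Measure X))
    (fun i => inferInstance) (fun i => codim_curve R (hμ i)) hS hSD
  have e : (k : ℝ≥0∞) * (1/4) = k / 4 := by rw [mul_one_div]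
  have e2 : ∀ p : Fin k → X, II S (fun i => H443B.rgX (p i)) = S ∩ ⋂ i, range (p i).1 :=
    fun p => rfl
  simp_rw [e, e2] at h1 h2
  refine ⟨?_, ?_, ?_⟩
  · apply essSup_eq
    · filter_upwards [h1] with p hp
      exact hp.1
    · intro a ha
      rw [tsub_le_iff_right]
      exact h2 a ha
  · intro hlt
    filter_upwards [h1] with p hp
    exact hp.2 hlt
  · intro hlt
    rw [pos_iff_ne_zero]
    intro h0
    have h3 := h2 0 (by
      have h4 : ∀ᵐ p ∂(Measure.pi fun i => (μ i : Measure X)),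
          ¬ (S ∩ ⋂ i, range (p i).1).Nonempty := by
        rw [ae_iff]
        simpa only [not_not] using h0
      filter_upwards [h4] with p hp
      rw [not_nonempty_iff_eq_empty.mp hp, dimH_empty])
    rw [zero_add] at h3
    exact absurd hlt (not_lt.mpr h3)

end Pool.Agent.Run7.h885.FS
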