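import Pool.Agent.H984R4.NP.Model

/-!
Definitions for the sets hit by the exploration path.
-/

namespace Pool.Agent.Run7.h885.FS

open MeasureTheory Filter Topology
open scoped ENNReal

/-- The Riesz energy of exponent `a` of a measure in the plane. -/
noncomputable def energy (a : ℝ) (ν : Measure ℂ) : ℝ≥0∞ :=
  ∫⁻ z, ∫⁻ w, (edist z w) ^ (-a) ∂ν ∂ν

/-- The Hausdorff content of exponent `a`. -/
noncomputable def content (a : ℝ) (S : Set ℂ) : ℝ≥0∞ :=
  ⨅ (U : ℕ → Set ℂ) (_ : S ⊆ ⋃ n, U n), ∑' n, (Metric.ediam (U n)) ^ a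

/-- `μ` is a weak limit of the laws of the exploration path (with its duration) in `R`, along some
sequence of meshes tending to `0`. -/
def IsLim (R : H984N.Rect) (μ : ProbabilityMeasure H984N.X) : Prop :=
  ∃ δ : ℕ → ℝ, (∀ i, 0 < δ i) ∧ Tendsto δ atTop (𝓝 0) ∧
    Tendsto (fun i => R.law (δ i)) atTop (𝓝 μ)

end Pool.Agent.Run7.h885.FS
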