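import Pool.Agent.Run7.h885.FS.DimLow
import Pool.Agent.R280.HC.FL
import Pool.Agent.R280.HC.C0
import Pool.Agent.R280.HC.C0H
import Pool.Agent.R280.HC.WL
import Pool.Agent.R280.HC.SA
import Pool.Agent.R280.HC.SB

/-!
Random compact sets and fixed sets of large dimension.
-/

namespace Pool.Agent.Run7.h885.FS

open MeasureTheory Set Metric Filter Topology TopologicalSpace
open scoped ENNReal NNReal

variable [MeasurableSpace (NonemptyCompacts ℂ)] [BorelSpace (NonemptyCompacts ℂ)]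

theorem frostman {S : Set ℂ} (hS : IsCompact S) {s : ℝ} (hs : 0 < s)
    (h : ENNReal.ofReal s < dimH S) :
    ∃ (ν : Measure ℂ) (A : ℝ), IsProbabilityMeasure ν ∧ ν Sᶜ = 0 ∧ 0 ≤ A ∧
      ∀ (z : ℂ) (r : ℝ), 0 < r → ν (closedBall z r) ≤ ENNReal.ofReal (A * r ^ s) := by
  have h1 := R280.HC.C0H.main ℂ s hs S h
  obtain ⟨κ, hκ0, hκ⟩ : ∃ κ : ℝ, 0 < κ ∧ ENNReal.ofReal κ ≤ R280.HC.cont s S := by
    refine ⟨(min (R280.HC.cont s S) 1).toReal, ?_, ?_⟩
    · apply ENNReal.toReal_pos (lt_min h1 one_pos).ne'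
      exact ne_top_of_le_ne_top ENNReal.one_ne_top (min_le_right _ _)
    · rw [ENNReal.ofReal_toReal (ne_top_of_le_ne_top ENNReal.one_ne_top (min_le_right _ _))]
      exact min_le_left _ _
  obtain ⟨ν, hν1, hν2, hν3⟩ := R280.HC.FL.main R280.HC.C0.main R280.HC.WL.main
    R280.HC.SA.main R280.HC.SB.main ℂ S hS s hs κ hκ0 hκ
  exact ⟨ν, 2 * 120 ^ s / κ, hν1, hν2, by positivity, hν3⟩

theorem exists_between' {a : ℝ} {d : ℝ≥0∞} (h : ENNReal.ofReal a < d) (ha : 0 ≤ a) :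
    ∃ s : ℝ, a < s ∧ ENNReal.ofReal s < d := by
  obtain ⟨s, hs0, h1, h2⟩ := ENNReal.lt_iff_exists_real_btwn.mp h
  exact ⟨s, (ENNReal.ofReal_lt_ofReal_iff_of_nonneg ha).mp h1, h2⟩

/-- a compact set of dimension larger than `q` is hit with positive probability -/
theorem hit_pos {μ : Measure (NonemptyCompacts ℂ)} [IsProbabilityMeasure μ] {S : Set ℂ}
    (hS : IsCompact S) {q c C r0 : ℝ} (hq : 0 < q) (hc : 0 < c) (hC : 0 ≤ C) (hr0 : 0 < r0)
    (h1 : H1 μ S q c r0) (h2 : H2 μ S q C r0) (hd : ENNReal.ofReal q < dimH S) :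
    0 < μ {K | ((K : Set ℂ) ∩ S).Nonempty} := by
  obtain ⟨s, hs, hsd⟩ := exists_between' hd hq.le
  obtain ⟨ν, A, hν1, hν2, hA, hν3⟩ := frostman hS (hq.trans hs) hsd
  have hE := energy_lt_top hq hs hA hν3
  have h3 := hit_lower hS hq.le hc.le hC hr0 h1 h2 ν hν2 hE.ne
  rw [measure_univ, mul_one] at h3
  rw [pos_iff_ne_zero]
  intro h4
  rw [h4, mul_zero, nonpos_iff_eq_zero, pow_eq_zero_iff (by norm_num)] at h3
  exact (ENNReal.ofReal_pos.mpr hc).ne' h3

/-- the dimension of the intersection is large with positive probability -/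
theorem dim_pos {μ : Measure (NonemptyCompacts ℂ)} [IsProbabilityMeasure μ] {S : Set ℂ}
    (hS : IsCompact S) {q c C r0 t : ℝ} (hq : 0 < q) (hc : 0 < c) (hC : 0 ≤ C) (hr0 : 0 < r0)
    (ht : 0 < t) (h1 : H1 μ S q c r0) (h2 : H2 μ S q C r0)
    (hd : ENNReal.ofReal (q + t) < dimH S) :
    0 < μ {K | ENNReal.ofReal t ≤ dimH ((K : Set ℂ) ∩ S)} := by
  obtain ⟨s, hs, hsd⟩ := exists_between' hd (by positivity)
  obtain ⟨ν, A, hν1, hν2, hA, hν3⟩ := frostman hS (by linarith) hsd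
  have hE := energy_lt_top hq (by linarith : q < s) hA hν3
  have hE2 := energy_lt_top (by positivity : 0 < q + t) hs hA hν3
  exact dim_lower hS hq.le hc hC hr0 ht h1 h2 ν hν2 (by rw [measure_univ]; exact one_ne_zero)
    hE.ne hE2.ne

end Pool.Agent.Run7.h885.FS
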