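import Pool.Agent.Run7.h885.FS.Second

/-!
Random compact sets and fixed sets: lower bounds for the hitting probability and for the
dimension of the intersection.
-/

namespace Pool.Agent.Run7.h885.FS

open MeasureTheory Set Metric Filter Topology TopologicalSpace
open scoped ENNReal NNReal

variable [MeasurableSpace (NonemptyCompacts ℂ)] [BorelSpace (NonemptyCompacts ℂ)]

theorem exists_dist_le {z : ℂ} {K : NonemptyCompacts ℂ} {r : ℝ} (h : hd z K ≤ r) :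
    ∃ k ∈ (K : Set ℂ), dist z k ≤ r := by
  obtain ⟨k, hk, h2⟩ := K.isCompact.exists_infDist_eq_dist K.nonempty z
  exact ⟨k, hk, by rw [← h2]; exact h⟩

/-- one-point lower bound -/
def H1 (μ : Measure (NonemptyCompacts ℂ)) (S : Set ℂ) (q c r0 : ℝ) : Prop :=
  ∀ z ∈ S, ∀ r : ℝ, 0 < r → r < r0 → ENNReal.ofReal (c * r ^ q) ≤ μ {K | hd z K ≤ r}

/-- two-point upper bound -/
def H2 (μ : Measure (NonemptyCompacts ℂ)) (S : Set ℂ) (q C r0 : ℝ) : Prop :=
  ∀ z ∈ S, ∀ w ∈ S, ∀ r : ℝ, 0 < r → r < r0 → μ {K | hd z K ≤ r ∧ hd w K ≤ r} ≤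
    ENNReal.ofReal (C * r ^ (2 * q)) * (edist z w) ^ (-q)

theorem first_ge {μ : Measure (NonemptyCompacts ℂ)} [IsFiniteMeasure μ] {S : Set ℂ}
    {q c r0 : ℝ} (hc : 0 ≤ c) (h1 : H1 μ S q c r0) (ν : Measure ℂ) [IsFiniteMeasure ν]
    (hν : ν Sᶜ = 0) {r : ℝ} (hr : 0 < r) (hr0 : r < r0) :
    ENNReal.ofReal (r ^ q) * (ENNReal.ofReal c * ν univ) ≤ ∫⁻ K, ν (Zr r K) ∂μ := by
  rw [first_moment]
  have hae : ∀ᵐ z ∂ν, z ∈ S := by rw [ae_iff]; exact hν
  have h2 : ∫⁻ _, ENNReal.ofReal (c * r ^ q) ∂ν ≤ ∫⁻ z, μ {K | hd z K ≤ r} ∂ν := by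
    refine lintegral_mono_ae ?_
    filter_upwards [hae] with z hz
    exact h1 z hz r hr hr0
  rw [lintegral_const, ENNReal.ofReal_mul hc] at h2
  refine le_trans (le_of_eq ?_) h2
  ring

theorem En_le {μ : Measure (NonemptyCompacts ℂ)} [IsFiniteMeasure μ] {S : Set ℂ}
    {q C r0 t : ℝ} (hq : 0 ≤ q) (hC : 0 ≤ C) (ht : 0 ≤ t) (h2 : H2 μ S q C r0) (ν : Measure ℂ)
    [IsFiniteMeasure ν]
    (hν : ν Sᶜ = 0) {r : ℝ} (hr : 0 < r) (hr0 : r < r0) :
    ∫⁻ K, En t ν (Zr r K) ∂μ ≤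
      ENNReal.ofReal (r ^ q) ^ 2 * (ENNReal.ofReal C * energy (q + t) ν) := by
  refine (En_moment_le (r := r) (D := C * r ^ (2 * q)) ht hq ν μ hν
    (fun z hz w hw => h2 z hz w hw r hr hr0)).trans (le_of_eq ?_)
  rw [ENNReal.ofReal_mul hC, ← ENNReal.ofReal_pow (by positivity)]
  have h3 : (r ^ q) ^ 2 = r ^ (2 * q) := by
    rw [← Real.rpow_natCast, ← Real.rpow_mul hr.le]
    congr 1; push_cast; ring
  rw [h3]; ring

theorem isClosed_hit {S : Set ℂ} (hS : IsClosed S) :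
    IsClosed {K : NonemptyCompacts ℂ | ((K : Set ℂ) ∩ S).Nonempty} :=
  NonemptyCompacts.isClosed_inter_nonempty_of_isClosed hS

theorem mem_hit_of_ne_zero {S : Set ℂ} {ν : Measure ℂ} (hν : ν Sᶜ = 0) {r : ℝ}
    {K : NonemptyCompacts ℂ} (h : ν (Zr r K) ≠ 0) : ((K : Set ℂ) ∩ cthickening r S).Nonempty := by
  have h1 : (Zr r K ∩ S).Nonempty := by
    by_contra h2
    rw [not_nonempty_iff_eq_empty] at h2
    apply h
    have h3 : Zr r K ⊆ Sᶜ := fun z hz hzS => by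
      have : z ∈ (∅ : Set ℂ) := h2 ▸ ⟨hz, hzS⟩
      exact this
    exact measure_mono_null h3 hν
  obtain ⟨z, hz, hzS⟩ := h1
  obtain ⟨k, hk, hzk⟩ := exists_dist_le (mem_Zr.mp hz)
  exact ⟨k, hk, mem_cthickening_of_dist_le k z r S hzS (by rwa [dist_comm])⟩

theorem hit_scale {μ : Measure (NonemptyCompacts ℂ)} [IsFiniteMeasure μ] {S : Set ℂ}
    {q c C r0 : ℝ} (hq : 0 ≤ q) (hc : 0 ≤ c) (hC : 0 ≤ C) (h1 : H1 μ S q c r0)
    (h2 : H2 μ S q C r0) (ν : Measure ℂ) [IsFiniteMeasure ν] (hν : ν Sᶜ = 0)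
    {r : ℝ} (hr : 0 < r) (hr0 : r < r0) :
    (ENNReal.ofReal c * ν univ) ^ 2 ≤ ENNReal.ofReal C * energy q ν *
      μ {K | ((K : Set ℂ) ∩ cthickening r S).Nonempty} := by
  have hA : MeasurableSet {K : NonemptyCompacts ℂ | ((K : Set ℂ) ∩ cthickening r S).Nonempty} :=
    (isClosed_hit isClosed_cthickening).measurableSet
  have e1 := cs_event μ (measurable_nu_Zr r ν) hA
  have e2 : ∫⁻ K in {K : NonemptyCompacts ℂ | ((K : Set ℂ) ∩ cthickening r S).Nonempty},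
      ν (Zr r K) ∂μ = ∫⁻ K, ν (Zr r K) ∂μ := by
    rw [← lintegral_indicator hA]
    refine lintegral_congr fun K => ?_
    by_cases hK : ((K : Set ℂ) ∩ cthickening r S).Nonempty
    · rw [indicator_of_mem]; exact hK
    · have h3 : ν (Zr r K) = 0 := by
        by_contra h4; exact hK (mem_hit_of_ne_zero hν h4)
      rw [indicator_of_notMem, h3]; exact hK
  have e3 := first_ge hc h1 ν hν hr hr0
  have e4 := En_le hq hC le_rfl h2 ν hν hr hr0
  simp_rw [En_zero] at e4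
  rw [add_zero] at e4
  rw [e2] at e1
  have hx0 : ENNReal.ofReal (r ^ q) ^ 2 ≠ 0 := by
    have : 0 < r ^ q := Real.rpow_pos_of_pos hr q
    exact pow_ne_zero 2 (ENNReal.ofReal_pos.mpr this).ne'
  have hxt : ENNReal.ofReal (r ^ q) ^ 2 ≠ ⊤ := ENNReal.pow_ne_top ENNReal.ofReal_ne_top
  rw [← ENNReal.mul_le_mul_iff_right hx0 hxt]
  calc ENNReal.ofReal (r ^ q) ^ 2 * (ENNReal.ofReal c * ν univ) ^ 2
      = (ENNReal.ofReal (r ^ q) * (ENNReal.ofReal c * ν univ)) ^ 2 := by ring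
    _ ≤ (∫⁻ K, ν (Zr r K) ∂μ) ^ 2 := by gcongr
    _ ≤ _ := e1
    _ ≤ (ENNReal.ofReal (r ^ q) ^ 2 * (ENNReal.ofReal C * energy q ν)) * _ := by gcongr
    _ = _ := by ring

theorem iInter_hit {S : Set ℂ} (hS : IsCompact S) {u : ℕ → ℝ} (hu : Tendsto u atTop (𝓝 0))
    (K : NonemptyCompacts ℂ) (h : ∀ n, ((K : Set ℂ) ∩ cthickening (u n) S).Nonempty) :
    ((K : Set ℂ) ∩ S).Nonempty := by
  by_contra h1
  rw [not_nonempty_iff_eq_empty, ← disjoint_iff_inter_eq_empty] at h1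
  obtain ⟨δ, hδ, hd⟩ := h1.exists_cthickenings K.isCompact hS.isClosed
  obtain ⟨n, hn⟩ := (hu.eventually (gt_mem_nhds hδ)).exists
  obtain ⟨z, hz1, hz2⟩ := h n
  exact disjoint_left.mp hd (self_subset_cthickening _ hz1) (cthickening_mono hn.le S hz2)

/-- a random compact set hits a fixed compact set with probability at least
  a multiple of its capacity -/
theorem hit_lower {μ : Measure (NonemptyCompacts ℂ)} [IsFiniteMeasure μ] {S : Set ℂ}
    (hS : IsCompact S) {q c C r0 : ℝ} (hq : 0 ≤ q) (hc : 0 ≤ c) (hC : 0 ≤ C) (hr0 : 0 < r0)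
    (h1 : H1 μ S q c r0) (h2 : H2 μ S q C r0) (ν : Measure ℂ) [IsFiniteMeasure ν]
    (hν : ν Sᶜ = 0) (hE : energy q ν ≠ ⊤) :
    (ENNReal.ofReal c * ν univ) ^ 2 ≤ ENNReal.ofReal C * energy q ν *
      μ {K | ((K : Set ℂ) ∩ S).Nonempty} := by
  set u : ℕ → ℝ := fun n => r0 * (1 / ((n : ℝ) + 2)) with hu
  have hu0 : ∀ n, 0 < u n := fun n => by simp only [hu]; positivity
  have hu1 : ∀ n, u n < r0 := fun n => by
    simp only [hu]
    have : (1 : ℝ) / (n + 2) < 1 := by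
      rw [div_lt_one (by positivity)]
      have : (0 : ℝ) ≤ n := Nat.cast_nonneg n
      linarith
    nlinarith
  have hanti : Antitone u := by
    intro m n hmn
    simp only [hu]
    gcongr
  have hut : Tendsto u atTop (𝓝 0) := by
    have h3 : Tendsto (fun n : ℕ => (1 : ℝ) / ((n : ℝ) + 2)) atTop (𝓝 0) := by
      have h4 : Tendsto (fun n : ℕ => (n : ℝ) + 2) atTop atTop :=
        tendsto_atTop_add_const_right _ _ tendsto_natCast_atTop_atTop
      have h5 := tendsto_inv_atTop_zero.comp h4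
      simp_rw [one_div]
      exact h5
    have h6 := h3.const_mul r0
    rw [mul_zero] at h6
    exact h6
  set B : ℕ → Set (NonemptyCompacts ℂ) := fun n =>
    {K | ((K : Set ℂ) ∩ cthickening (u n) S).Nonempty} with hB
  have hBm : ∀ n, NullMeasurableSet (B n) μ := fun n =>
    (isClosed_hit isClosed_cthickening).measurableSet.nullMeasurableSet
  have hBa : Antitone B := by
    intro m n hmn K hK
    obtain ⟨z, hz1, hz2⟩ := hK
    exact ⟨z, hz1, cthickening_mono (hanti hmn) S hz2⟩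
  have ht := tendsto_measure_iInter_atTop (μ := μ) hBm hBa ⟨0, measure_ne_top _ _⟩
  have hI : ⋂ n, B n = {K : NonemptyCompacts ℂ | ((K : Set ℂ) ∩ S).Nonempty} := by
    apply Subset.antisymm
    · intro K hK
      rw [mem_iInter] at hK
      exact iInter_hit hS hut K hK
    · intro K hK
      rw [mem_iInter]
      intro n
      obtain ⟨z, hz1, hz2⟩ := hK
      exact ⟨z, hz1, self_subset_cthickening _ hz2⟩
  rw [hI] at ht
  have hCE : ENNReal.ofReal C * energy q ν ≠ ⊤ := ENNReal.mul_ne_top ENNReal.ofReal_ne_top hE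
  have ht2 := ENNReal.Tendsto.const_mul ht (Or.inr hCE)
  refine ge_of_tendsto' ht2 fun n => ?_
  exact hit_scale hq hc hC h1 h2 ν hν (hu0 n) (hu1 n)

end Pool.Agent.Run7.h885.FS
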