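import Pool.Agent.Run7.h885.FS.Lim

/-!
The limits of the trace of the exploration path and fixed sets: lower bounds.
-/

namespace Pool.Agent.Run7.h885.FS

open H934E MeasureTheory TopologicalSpace Filter Topology Set Metric
open scoped ENNReal

/-- the capacity bound -/
theorem cap_trace (R : Rect) {Q : Set ℂ} (hQ : IsCompact Q) (hQD : Q ⊆ R.D) :
    ∃ c : ℝ, 0 < c ∧ ∀ (δ : ℕ → ℝ) (hδ : ∀ i, 0 < δ i), Tendsto δ atTop (𝓝 0) →
      ∀ μ : ProbabilityMeasure (NonemptyCompacts ℂ),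
        Tendsto (fun i => R.law (hδ i)) atTop (𝓝 μ) →
        ∀ S ⊆ Q, IsCompact S → ∀ ν : Measure ℂ, IsFiniteMeasure ν → ν Sᶜ = 0 →
          ENNReal.ofReal c * ν univ ^ 2 / energy (1/4) ν ≤
            (μ : Measure (NonemptyCompacts ℂ)) {K | ((K : Set ℂ) ∩ S).Nonempty} := by
  obtain ⟨c, r0, hc, hr0, h1⟩ := one_point R hQ hQD
  obtain ⟨C, hC, h2⟩ := two_point R hQ hQD
  refine ⟨c ^ 2 / C, by positivity, ?_⟩
  intro δ hδ hδ0 μ hμ S hSQ hS ν hν hνS
  by_cases hE : energy (1/4) ν = ⊤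
  · rw [hE, ENNReal.div_top]
    exact zero_le
  have h3 := hit_lower hS (by norm_num : (0 : ℝ) ≤ 1/4) hc.le hC.le hr0
    (fun z hz => h1 δ hδ hδ0 μ hμ z (hSQ hz))
    (fun z hz w hw => h2 δ hδ hδ0 μ hμ r0 z (hSQ hz) w (hSQ hw)) ν hνS hE
  apply ENNReal.div_le_of_le_mul
  have e1 : ENNReal.ofReal (c ^ 2 / C) * ν univ ^ 2 =
      ENNReal.ofReal (1 / C) * (ENNReal.ofReal c * ν univ) ^ 2 := by
    rw [mul_pow, ← mul_assoc, ← ENNReal.ofReal_pow hc.le, ← ENNReal.ofReal_mul (by positivity)]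
    congr 2; ring
  rw [e1]
  calc ENNReal.ofReal (1 / C) * (ENNReal.ofReal c * ν univ) ^ 2
      ≤ ENNReal.ofReal (1 / C) * (ENNReal.ofReal C * energy (1/4) ν *
        (μ : Measure (NonemptyCompacts ℂ)) {K | ((K : Set ℂ) ∩ S).Nonempty}) := by gcongr
    _ = (ENNReal.ofReal (1 / C) * ENNReal.ofReal C) * (energy (1/4) ν *
        (μ : Measure (NonemptyCompacts ℂ)) {K | ((K : Set ℂ) ∩ S).Nonempty}) := by ring
    _ = energy (1/4) ν *
        (μ : Measure (NonemptyCompacts ℂ)) {K | ((K : Set ℂ) ∩ S).Nonempty} := by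
        rw [← ENNReal.ofReal_mul (by positivity), one_div_mul_cancel hC.ne',
          ENNReal.ofReal_one, one_mul]
    _ = _ := mul_comm _ _

theorem quarter : (1 / 4 : ℝ≥0∞) = ENNReal.ofReal (1/4) := by
  rw [ENNReal.ofReal_div_of_pos (by norm_num)]
  norm_num

/-- a real number between -/
theorem exists_t {a d : ℝ≥0∞} (h : a + 1/4 < d) :
    ∃ t : ℝ, 0 < t ∧ a < ENNReal.ofReal t ∧ ENNReal.ofReal (1/4 + t) < d := by
  obtain ⟨q, hq0, hq1, hq2⟩ := ENNReal.lt_iff_exists_real_btwn.mp h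
  have h4 : 1/4 < q := by
    by_contra h5
    have h6 : ENNReal.ofReal q ≤ ENNReal.ofReal (1/4) := ENNReal.ofReal_le_ofReal (not_lt.mp h5)
    rw [← quarter] at h6
    exact absurd (hq1.trans_le h6) (not_lt.mpr le_add_self)
  refine ⟨q - 1/4, by linarith, ?_, ?_⟩
  · have h7 : ENNReal.ofReal q = ENNReal.ofReal (q - 1/4) + 1/4 := by
      rw [quarter, ← ENNReal.ofReal_add (by linarith) (by norm_num)]
      congr 1; ring
    rw [h7] at hq1
    exact (ENNReal.add_lt_add_iff_right (by rw [quarter]; exact ENNReal.ofReal_ne_top)).mp hq1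
  · have : 1/4 + (q - 1/4) = q := by ring
    rw [this]; exact hq2

/-- lower bound for the essential supremum of the dimension of the intersection with a
  countable union of compact sets -/
theorem ess_trace (R : Rect) {δ : ℕ → ℝ} (hδ : ∀ i, 0 < δ i) (hδ0 : Tendsto δ atTop (𝓝 0))
    {μ : ProbabilityMeasure (NonemptyCompacts ℂ)}
    (hμ : Tendsto (fun i => R.law (hδ i)) atTop (𝓝 μ)) {S : Set ℂ} (hS : IsSigmaCompact S)
    (hSD : S ⊆ R.D) {a : ℝ≥0∞}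
    (h : ∀ᵐ K : NonemptyCompacts ℂ ∂(μ : Measure (NonemptyCompacts ℂ)),
      dimH (S ∩ (K : Set ℂ)) ≤ a) : dimH S ≤ a + 1/4 := by
  obtain ⟨T, hT, rfl⟩ := hS
  by_contra hcon
  rw [not_le, dimH_iUnion, lt_iSup_iff] at hcon
  obtain ⟨n, hn⟩ := hcon
  obtain ⟨t, ht0, hat, htd⟩ := exists_t hn
  have hTD : T n ⊆ R.D := (subset_iUnion T n).trans hSD
  obtain ⟨c, r0, hc, hr0, h1⟩ := one_point R (hT n) hTD
  obtain ⟨C, hC, h2⟩ := two_point R (hT n) hTD
  have h3 := dim_pos (hT n) (by norm_num : (0 : ℝ) < 1/4) hc hC.le hr0 ht0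
    (h1 δ hδ hδ0 μ hμ) (h2 δ hδ hδ0 μ hμ r0) htd
  have h4 : (μ : Measure (NonemptyCompacts ℂ))
      {K | ENNReal.ofReal t ≤ dimH ((K : Set ℂ) ∩ T n)} = 0 := by
    rw [ae_iff] at h
    refine measure_mono_null ?_ h
    intro K hK hK2
    have h5 : (K : Set ℂ) ∩ T n ⊆ (⋃ n, T n) ∩ (K : Set ℂ) :=
      fun z hz => ⟨mem_iUnion.mpr ⟨n, hz.2⟩, hz.1⟩
    have h6 : ENNReal.ofReal t ≤ dimH ((K : Set ℂ) ∩ T n) := hK
    have h7 := h6.trans ((dimH_mono h5).trans hK2)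
    exact absurd hat (not_lt.mpr h7)
  rw [h4] at h3
  exact lt_irrefl 0 h3

end Pool.Agent.Run7.h885.FS
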