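import Pool.Agent.Run7.h885.FS.Loc
import Pool.Agent.H934R3.D74.T9

/-!
The exploration path meets two discs: upper bound for the probability.
-/

namespace Pool.Agent.Run7.h885.FS

open H974 H973 H12S H934E H934F Finset MeasureTheory TopologicalSpace Filter Topology

theorem q4_le {P X k : ℝ} (hP : 0 ≤ P) (hX : 0 ≤ X) (hk : 0 ≤ k) (h : P ≤ k ^ 4 * X) :
    P ^ (1/4 : ℝ) ≤ k * X ^ (1/4 : ℝ) := by
  calc P ^ (1/4 : ℝ) ≤ (k ^ 4 * X) ^ (1/4 : ℝ) := Real.rpow_le_rpow hP h (by norm_num)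
    _ = (k ^ 4) ^ (1/4 : ℝ) * X ^ (1/4 : ℝ) := Real.mul_rpow (by positivity) hX
    _ = k * X ^ (1/4 : ℝ) := by
        congr 1
        rw [← Real.rpow_natCast, ← Real.rpow_mul hk]
        norm_num

/-- the lattice point below a point of the plane -/
noncomputable def vt (δ : ℝ) (z : ℂ) : Vtx := (⌊z.re / δ⌋, ⌊z.im / δ⌋)

theorem nd_bounds {δ : ℝ} (hδ : 0 < δ) (z w : ℂ) : ∃ K : ℕ, nd (vt δ z) (vt δ w) = K ∧
    (K : ℝ) ≤ dist z w / δ + 1 ∧ dist z w / δ / 2 - 1 ≤ K := by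
  have hk0 : 0 ≤ nd (vt δ z) (vt δ w) := le_max_of_le_left (abs_nonneg _)
  obtain ⟨K, hK⟩ := Int.eq_ofNat_of_zero_le hk0
  refine ⟨K, hK, ?_⟩
  have hre : |z.re - w.re| ≤ dist z w := by
    rw [Complex.dist_eq]; simpa using Complex.abs_re_le_norm (z - w)
  have him : |z.im - w.im| ≤ dist z w := by
    rw [Complex.dist_eq]; simpa using Complex.abs_im_le_norm (z - w)
  have hsum : dist z w ≤ |z.re - w.re| + |z.im - w.im| := by
    rw [Complex.dist_eq]; simpa using Complex.norm_le_abs_re_add_abs_im (z - w)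
  have a1 := Int.floor_le (z.re / δ)
  have a2 := Int.lt_floor_add_one (z.re / δ)
  have b1 := Int.floor_le (z.im / δ)
  have b2 := Int.lt_floor_add_one (z.im / δ)
  have c1 := Int.floor_le (w.re / δ)
  have c2 := Int.lt_floor_add_one (w.re / δ)
  have d1 := Int.floor_le (w.im / δ)
  have d2 := Int.lt_floor_add_one (w.im / δ)
  have e1 : |z.re - w.re| / δ = |z.re / δ - w.re / δ| := by
    rw [← sub_div, abs_div, abs_of_pos hδ]
  have e2 : |z.im - w.im| / δ = |z.im / δ - w.im / δ| := by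
    rw [← sub_div, abs_div, abs_of_pos hδ]
  have f1 : |z.re / δ - w.re / δ| ≤ dist z w / δ := by
    rw [← e1]; exact div_le_div_of_nonneg_right hre hδ.le
  have f2 : |z.im / δ - w.im / δ| ≤ dist z w / δ := by
    rw [← e2]; exact div_le_div_of_nonneg_right him hδ.le
  have f3 : dist z w / δ ≤ |z.re / δ - w.re / δ| + |z.im / δ - w.im / δ| := by
    rw [← e1, ← e2, ← add_div]; exact div_le_div_of_nonneg_right hsum hδ.le
  have hKr : ((nd (vt δ z) (vt δ w) : ℤ) : ℝ) = K := by rw [hK]; norm_cast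
  have hnd : ((nd (vt δ z) (vt δ w) : ℤ) : ℝ) =
      max |(⌊z.re / δ⌋ : ℝ) - ⌊w.re / δ⌋| |(⌊z.im / δ⌋ : ℝ) - ⌊w.im / δ⌋| := by
    unfold nd vt; push_cast; rfl
  have g1 : |(⌊z.re / δ⌋ : ℝ) - ⌊w.re / δ⌋| ≤ |z.re / δ - w.re / δ| + 1 := by
    rw [abs_le]
    have := neg_abs_le (z.re / δ - w.re / δ)
    have := le_abs_self (z.re / δ - w.re / δ)
    constructor <;> linarith
  have g2 : |(⌊z.im / δ⌋ : ℝ) - ⌊w.im / δ⌋| ≤ |z.im / δ - w.im / δ| + 1 := by
    rw [abs_le]
    have := neg_abs_le (z.im / δ - w.im / δ)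
    have := le_abs_self (z.im / δ - w.im / δ)
    constructor <;> linarith
  have g3 : |z.re / δ - w.re / δ| ≤ |(⌊z.re / δ⌋ : ℝ) - ⌊w.re / δ⌋| + 1 := by
    rw [abs_le]
    have := neg_abs_le ((⌊z.re / δ⌋ : ℝ) - ⌊w.re / δ⌋)
    have := le_abs_self ((⌊z.re / δ⌋ : ℝ) - ⌊w.re / δ⌋)
    constructor <;> linarith
  have g4 : |z.im / δ - w.im / δ| ≤ |(⌊z.im / δ⌋ : ℝ) - ⌊w.im / δ⌋| + 1 := by
    rw [abs_le]
    have := neg_abs_le ((⌊z.im / δ⌋ : ℝ) - ⌊w.im / δ⌋)
    have := le_abs_self ((⌊z.im / δ⌋ : ℝ) - ⌊w.im / δ⌋)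
    constructor <;> linarith
  rw [← hKr, hnd]
  constructor
  · apply max_le <;> linarith
  · have h1 := le_max_left |(⌊z.re / δ⌋ : ℝ) - ⌊w.re / δ⌋| |(⌊z.im / δ⌋ : ℝ) - ⌊w.im / δ⌋|
    have h2 := le_max_right |(⌊z.re / δ⌋ : ℝ) - ⌊w.re / δ⌋| |(⌊z.im / δ⌋ : ℝ) - ⌊w.im / δ⌋|
    linarith

theorem two_disc_lat {C : ℝ} (hC : 0 < C) (hA : AB C) (R : Rect) {z w : ℂ} {r d δ : ℝ}
    (hδ : 0 < δ) (hr : δ ≤ r) (hd : 64 * r ≤ d) (hz : Metric.ball z d ⊆ R.D)
    (hw : Metric.ball w d ⊆ R.D) (hzw : 40 * r ≤ dist z w) :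
    Q (R.edges δ) (fun F => (R.path δ F ∩ Metric.ball z r).Nonempty ∧
      (R.path δ F ∩ Metric.ball w r).Nonempty) ≤
      (12 * C ^ 3 + 20 * C ^ 2) * ((r / d) * (r / min (dist z w) d)) ^ (1/4 : ℝ) := by
  have hrpos : 0 < r := hδ.trans_le hr
  have hdpos : 0 < d := by linarith
  have hDpos : 0 < dist z w := by linarith
  set D := dist z w with hD
  have hmin : 0 < min D d := lt_min hDpos hdpos
  obtain ⟨K, hK, hK1, hK2⟩ := nd_bounds hδ z w
  rw [← hD] at hK1 hK2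
  set x := r / δ with hx
  have hx1 : 1 ≤ x := by rw [hx, le_div_iff₀ hδ]; linarith
  set a := D / δ with ha
  have hax : 40 * x ≤ a := by
    rw [hx, ha, mul_div_assoc', div_le_div_iff_of_pos_right hδ]; exact hzw
  set b := d / δ with hb
  have hbx : 64 * x ≤ b := by
    rw [hx, hb, mul_div_assoc', div_le_div_iff_of_pos_right hδ]; exact hd
  set ρ : ℕ := ⌈x⌉₊ + 4 with hρ
  have hρ1 : (ρ : ℝ) ≤ 6 * x := by
    have := Nat.ceil_lt_add_one (by linarith : 0 ≤ x)
    rw [hρ]; push_cast; linarith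
  set N : ℕ := ⌊d / (4 * δ)⌋₊ with hN
  have hb4 : d / (4 * δ) = b / 4 := by rw [hb]; field_simp
  have hN1 : b / 4 < N + 1 := by rw [hN, ← hb4]; exact Nat.lt_floor_add_one _
  have hN2 : b / 8 ≤ N := by linarith
  have hstep : Q (R.edges δ) (fun F => (R.path δ F ∩ Metric.ball z r).Nonempty ∧
      (R.path δ F ∩ Metric.ball w r).Nonempty) ≤
      Q (R.edges δ) (fun F => TwoA (R.edges δ) (vt δ z) ρ N F ∧
        TwoA (R.edges δ) (vt δ w) ρ N F) :=
    Q_mono (fun F _ h => ⟨t9_det R hδ hr hd hz h.1, t9_det R hδ hr hd hw h.2⟩)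
  refine hstep.trans ?_
  have hKbig : (19 : ℝ) ≤ K := by linarith
  have hKb : 19 ≤ K := by exact_mod_cast hKbig
  obtain ⟨M, hM1, hM2⟩ : ∃ M : ℕ, 2 * M < K ∧ K ≤ 2 * M + 2 := ⟨(K - 1) / 2, by omega, by omega⟩
  have hM3 : (K : ℝ) ≤ 2 * M + 2 := by exact_mod_cast hM2
  have hM4 : a / 5 ≤ M := by linarith
  have hρM : ρ ≤ M := by
    have : (ρ : ℝ) ≤ M := by linarith
    exact_mod_cast this
  have hρN : ρ ≤ N := by
    have : (ρ : ℝ) < N + 1 := by linarith
    have h2 : ρ < N + 1 := by exact_mod_cast this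
    omega
  have hρ0 : 1 ≤ ρ := by omega
  have hMpos : (0 : ℝ) < M := by linarith
  have hNpos : (0 : ℝ) < N := by linarith
  have hρ0' : (0 : ℝ) ≤ ρ := Nat.cast_nonneg _
  have hX0 : 0 ≤ (r / d) * (r / min D d) := by positivity
  have hq0 : 0 ≤ ((r / d) * (r / min D d)) ^ (1/4 : ℝ) := by positivity
  have hrδ : r = x * δ := by rw [hx]; field_simp
  have hDδ : D = a * δ := by rw [ha]; field_simp
  have hdδ : d = b * δ := by rw [hb]; field_simp
  by_cases hKN : 2 * K ≤ N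
  · have hMN : M ≤ N := by omega
    refine (three_prod hC.le hA hK hM1 hρ0 hρM hMN hKN).trans ?_
    set A : ℝ := (ρ : ℝ) / M with hA'
    set B : ℝ := ((2 * K : ℕ) : ℝ) / N with hB'
    have hA0 : 0 ≤ A := by positivity
    have hB0 : 0 ≤ B := by positivity
    have hA1 : A ≤ 30 * (r / D) := by
      rw [hA', hrδ, hDδ, mul_div_mul_right _ _ hδ.ne', div_le_iff₀ hMpos]
      have : 30 * (x / a) * (a / 5) = 6 * x := by
        have : a ≠ 0 := by linarith
        field_simp; norm_num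
      have h3 : 30 * (x / a) * (a / 5) ≤ 30 * (x / a) * M :=
        mul_le_mul_of_nonneg_left hM4 (by positivity)
      linarith
    have hB1 : B ≤ 17 * (D / d) := by
      rw [hB', hDδ, hdδ, mul_div_mul_right _ _ hδ.ne', div_le_iff₀ hNpos]
      push_cast
      have hb0 : b ≠ 0 := by linarith
      have : 17 * (a / b) * (b / 8) = 17 / 8 * a := by field_simp
      have h3 : 17 * (a / b) * (b / 8) ≤ 17 * (a / b) * N :=
        mul_le_mul_of_nonneg_left hN2 (by
          have : 0 < a := by linarith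
          have : 0 < b := by linarith
          positivity)
      linarith
    have hAAB : A * (A * B) ≤ 12 ^ 4 * ((r / d) * (r / min D d)) := by
      have h4 : A * (A * B) ≤ (30 * (r / D)) * ((30 * (r / D)) * (17 * (D / d))) := by
        gcongr
      refine h4.trans ?_
      have h5 : (30 * (r / D)) * ((30 * (r / D)) * (17 * (D / d))) =
          15300 * ((r / d) * (r / D)) := by field_simp; norm_num
      rw [h5]
      have h6 : r / D ≤ r / min D d := div_le_div_of_nonneg_left hrpos.le hmin (min_le_left _ _)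
      have h7 : (r / d) * (r / D) ≤ (r / d) * (r / min D d) :=
        mul_le_mul_of_nonneg_left h6 (by positivity)
      have h8 : 0 ≤ (r / d) * (r / D) := by positivity
      linarith
    have h9 := q4_le (k := 12) (by positivity) hX0 (by norm_num) hAAB
    have h10 : (A * (A * B)) ^ (1/4 : ℝ) = A ^ (1/4 : ℝ) * (A ^ (1/4 : ℝ) * B ^ (1/4 : ℝ)) := by
      rw [Real.mul_rpow hA0 (by positivity), Real.mul_rpow hA0 hB0]
    rw [h10] at h9
    calc C * A ^ (1/4 : ℝ) * (C * A ^ (1/4 : ℝ) * (C * B ^ (1/4 : ℝ)))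
        = C ^ 3 * (A ^ (1/4 : ℝ) * (A ^ (1/4 : ℝ) * B ^ (1/4 : ℝ))) := by ring
      _ ≤ C ^ 3 * (12 * ((r / d) * (r / min D d)) ^ (1/4 : ℝ)) := by gcongr
      _ ≤ _ := by
        have : 0 ≤ 20 * C ^ 2 * ((r / d) * (r / min D d)) ^ (1/4 : ℝ) := by positivity
        linarith
  · push Not at hKN
    set M' : ℕ := min M N with hM'
    have hN16 : 15 < N := by
      have : (15 : ℝ) < N := by linarith
      exact_mod_cast this
    have hM'1 : N ≤ 8 * M' := by omega
    have hM'1r : (N : ℝ) ≤ 8 * M' := by exact_mod_cast hM'1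
    have hM'pos : (0 : ℝ) < M' := by linarith
    refine (two_prod hC.le hA hK (by omega : 2 * M' < K) hρ0 (by omega) (by omega)).trans ?_
    set A : ℝ := (ρ : ℝ) / M' with hA'
    have hA0 : 0 ≤ A := by positivity
    have hA1 : A ≤ 384 * (r / d) := by
      rw [hA', hrδ, hdδ, mul_div_mul_right _ _ hδ.ne', div_le_iff₀ hM'pos]
      have hb0 : b ≠ 0 := by linarith
      have : 384 * (x / b) * (b / 64) = 6 * x := by field_simp; norm_num
      have h3 : 384 * (x / b) * (b / 64) ≤ 384 * (x / b) * M' :=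
        mul_le_mul_of_nonneg_left (by linarith) (by
          have : 0 < b := by linarith
          positivity)
      linarith
    have hAA : A * A ≤ 20 ^ 4 * ((r / d) * (r / min D d)) := by
      have h4 : A * A ≤ (384 * (r / d)) * (384 * (r / d)) := by gcongr
      refine h4.trans ?_
      have h6 : r / d ≤ r / min D d := div_le_div_of_nonneg_left hrpos.le hmin (min_le_right _ _)
      have h7 : (r / d) * (r / d) ≤ (r / d) * (r / min D d) :=
        mul_le_mul_of_nonneg_left h6 (by positivity)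
      have h8 : 0 ≤ (r / d) * (r / d) := by positivity
      nlinarith
    have h9 := q4_le (k := 20) (by positivity) hX0 (by norm_num) hAA
    rw [Real.mul_rpow hA0 hA0] at h9
    calc C * A ^ (1/4 : ℝ) * (C * A ^ (1/4 : ℝ))
        = C ^ 2 * (A ^ (1/4 : ℝ) * A ^ (1/4 : ℝ)) := by ring
      _ ≤ C ^ 2 * (20 * ((r / d) * (r / min D d)) ^ (1/4 : ℝ)) := by gcongr
      _ ≤ _ := by
        have : 0 ≤ 12 * C ^ 3 * ((r / d) * (r / min D d)) ^ (1/4 : ℝ) := by positivity
        linarith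

theorem isOpen_meet (z : ℂ) (r : ℝ) :
    IsOpen {K : NonemptyCompacts ℂ | ((K : Set ℂ) ∩ Metric.ball z r).Nonempty} :=
  NonemptyCompacts.isOpen_inter_nonempty_of_isOpen Metric.isOpen_ball

/-- the exploration path of the lattice meets two discs -/
theorem two_disc (hA : St_A) : ∃ C : ℝ, 0 < C ∧ ∀ (R : Rect) (z w : ℂ) (r d : ℝ), 0 < r → 0 < d →
    Metric.ball z d ⊆ R.D → Metric.ball w d ⊆ R.D → z ≠ w → ∀ (δ : ℝ) (hδ : 0 < δ), δ ≤ r →
    (R.law hδ : Measure (NonemptyCompacts ℂ))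
        ({K : NonemptyCompacts ℂ | ((K : Set ℂ) ∩ Metric.ball z r).Nonempty} ∩
          {K : NonemptyCompacts ℂ | ((K : Set ℂ) ∩ Metric.ball w r).Nonempty}) ≤
      ENNReal.ofReal (C * ((r / d) * (r / min (dist z w) d)) ^ (1/4 : ℝ)) := by
  obtain ⟨C9, hC9, h9⟩ := t9 hA
  obtain ⟨C, hC, hA'⟩ := hA
  refine ⟨12 * C ^ 3 + 20 * C ^ 2 + 3 * C9 + 1, by positivity, ?_⟩
  intro R z w r d hr hd hz hw hzw δ hδ hδr
  have hDpos : 0 < dist z w := dist_pos.mpr hzw
  have hmin : 0 < min (dist z w) d := lt_min hDpos hd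
  have hX0 : 0 ≤ (r / d) * (r / min (dist z w) d) := by positivity
  have hq0 : 0 ≤ ((r / d) * (r / min (dist z w) d)) ^ (1/4 : ℝ) := by positivity
  by_cases hrd : d < r
  · refine prob_le_one.trans ?_
    rw [← ENNReal.ofReal_one]
    apply ENNReal.ofReal_le_ofReal
    have h1 : 1 ≤ r / d := by rw [one_le_div hd]; exact hrd.le
    have h2 : 1 ≤ r / min (dist z w) d := by
      rw [one_le_div hmin]; exact (min_le_right _ _).trans hrd.le
    have h3 : 1 ≤ (r / d) * (r / min (dist z w) d) := one_le_mul_of_one_le_of_one_le h1 h2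
    have h4 : 1 ≤ ((r / d) * (r / min (dist z w) d)) ^ (1/4 : ℝ) :=
      Real.one_le_rpow h3 (by norm_num)
    have h5 : 1 ≤ 12 * C ^ 3 + 20 * C ^ 2 + 3 * C9 + 1 := by
      have : 0 ≤ 12 * C ^ 3 + 20 * C ^ 2 + 3 * C9 := by positivity
      linarith
    exact one_le_mul_of_one_le_of_one_le h5 h4
  push Not at hrd
  by_cases hcase : 64 * r ≤ d ∧ 40 * r ≤ dist z w
  · have hop := ((isOpen_meet z r).inter (isOpen_meet w r)).measurableSet
    rw [R.law_apply hδ hop]
    apply ENNReal.ofReal_le_ofReal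
    refine (two_disc_lat hC hA' R hδ hδr hcase.1 hz hw hcase.2).trans ?_
    have : 0 ≤ (3 * C9 + 1) * ((r / d) * (r / min (dist z w) d)) ^ (1/4 : ℝ) := by positivity
    linarith
  · have h1 : 1 ≤ 64 * (r / min (dist z w) d) := by
      rw [← mul_div_assoc, one_le_div hmin]
      by_contra h2
      rw [not_le, lt_min_iff] at h2
      exact hcase ⟨h2.2.le, by linarith [h2.1]⟩
    refine (measure_mono Set.inter_subset_left).trans ((h9 R z r d hr hrd hz δ hδ hδr).trans ?_)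
    apply ENNReal.ofReal_le_ofReal
    have h2 : (r / d) ≤ 3 ^ 4 * ((r / d) * (r / min (dist z w) d)) := by
      have h3 : 0 < r / d := by positivity
      have h4 : 0 ≤ r / min (dist z w) d := by positivity
      nlinarith
    have h5 := q4_le (k := 3) (by positivity) hX0 (by norm_num) h2
    have h6 : C9 * (r / d) ^ (1/4 : ℝ) ≤
        C9 * (3 * ((r / d) * (r / min (dist z w) d)) ^ (1/4 : ℝ)) := by gcongr
    have : 0 ≤ (12 * C ^ 3 + 20 * C ^ 2 + 1) *
      ((r / d) * (r / min (dist z w) d)) ^ (1/4 : ℝ) := by positivity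
    linarith

/-- the limits of the exploration path meet two discs -/
theorem two_disc_lim (hA : St_A) : ∃ C : ℝ, 0 < C ∧ ∀ (R : Rect) (δ : ℕ → ℝ) (hδ : ∀ i, 0 < δ i),
    Tendsto δ atTop (𝓝 0) → ∀ μ : ProbabilityMeasure (NonemptyCompacts ℂ),
    Tendsto (fun i => R.law (hδ i)) atTop (𝓝 μ) →
    ∀ (z w : ℂ) (r d : ℝ), 0 < r → 0 < d →
    Metric.ball z d ⊆ R.D → Metric.ball w d ⊆ R.D → z ≠ w →
    (μ : Measure (NonemptyCompacts ℂ))
        ({K : NonemptyCompacts ℂ | ((K : Set ℂ) ∩ Metric.ball z r).Nonempty} ∩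
          {K : NonemptyCompacts ℂ | ((K : Set ℂ) ∩ Metric.ball w r).Nonempty}) ≤
      ENNReal.ofReal (C * ((r / d) * (r / min (dist z w) d)) ^ (1/4 : ℝ)) := by
  obtain ⟨C, hC, h⟩ := two_disc hA
  refine ⟨C, hC, ?_⟩
  intro R δ hδ hδ0 μ hμ z w r d hr hd hz hw hzw
  have hop := (isOpen_meet z r).inter (isOpen_meet w r)
  refine (ProbabilityMeasure.le_liminf_measure_open_of_tendsto hμ hop).trans ?_
  refine liminf_le_of_frequently_le' ?_
  apply Eventually.frequently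
  filter_upwards [hδ0.eventually (ge_mem_nhds hr)] with i hi
  exact h R z w r d hr hd hz hw hzw (δ i) (hδ i) hi

end Pool.Agent.Run7.h885.FS
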