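import Pool.Agent.Run7.h885.FS.Hit

/-!
Random compact sets and fixed sets: lower bound for the dimension of the intersection.
-/

namespace Pool.Agent.Run7.h885.FS

open MeasureTheory Set Metric Filter Topology TopologicalSpace
open scoped ENNReal NNReal

variable [MeasurableSpace (NonemptyCompacts ℂ)] [BorelSpace (NonemptyCompacts ℂ)]

/-- the good event at scale `r` -/
def GG (ν : Measure ℂ) (t r : ℝ) (a L : ℝ≥0∞) : Set (NonemptyCompacts ℂ) :=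
  {K | a ≤ ν (Zr r K) ∧ En t ν (Zr r K) ≤ L}

theorem measurableSet_GG (ν : Measure ℂ) [IsFiniteMeasure ν] (t r : ℝ) (a L : ℝ≥0∞) :
    MeasurableSet (GG ν t r a L) :=
  (measurableSet_le measurable_const (measurable_nu_Zr r ν)).inter
    (measurableSet_le (measurable_En_Zr t r ν) measurable_const)

/-- Paley-Zygmund: the first event -/
theorem pz {μ : Measure (NonemptyCompacts ℂ)} [IsProbabilityMeasure μ] (ν : Measure ℂ)
    [IsFiniteMeasure ν] {r : ℝ} {m V x : ℝ≥0∞} (hx0 : x ≠ 0) (hxt : x ≠ ⊤) (hm : m ≠ ⊤)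
    (h1 : x * m ≤ ∫⁻ K, ν (Zr r K) ∂μ) (h2 : ∫⁻ K, ν (Zr r K) ^ 2 ∂μ ≤ x ^ 2 * V) :
    (m / 2) ^ 2 ≤ V * μ {K | x * (m / 2) ≤ ν (Zr r K)} := by
  set A : Set (NonemptyCompacts ℂ) := {K | x * (m / 2) ≤ ν (Zr r K)} with hA
  have hAm : MeasurableSet A := measurableSet_le measurable_const (measurable_nu_Zr r ν)
  have e1 := cs_event μ (measurable_nu_Zr r ν) hAm
  have e2 : ∫⁻ K, ν (Zr r K) ∂μ = ∫⁻ K in A, ν (Zr r K) ∂μ + ∫⁻ K in Aᶜ, ν (Zr r K) ∂μ :=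
    (lintegral_add_compl _ hAm).symm
  have e3 : ∫⁻ K in Aᶜ, ν (Zr r K) ∂μ ≤ x * (m / 2) := by
    have h3 : ∫⁻ K in Aᶜ, ν (Zr r K) ∂μ ≤ ∫⁻ _ in Aᶜ, x * (m / 2) ∂μ := by
      apply setLIntegral_mono' hAm.compl
      intro K hK
      have : ¬ x * (m / 2) ≤ ν (Zr r K) := hK
      exact (not_le.mp this).le
    refine h3.trans ?_
    rw [setLIntegral_const]
    calc x * (m / 2) * μ Aᶜ ≤ x * (m / 2) * 1 := by gcongr; exact prob_le_one
      _ = _ := mul_one _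
  have hfin : x * (m / 2) ≠ ⊤ := ENNReal.mul_ne_top hxt (ENNReal.div_ne_top hm (by norm_num))
  have e4 : x * (m / 2) ≤ ∫⁻ K in A, ν (Zr r K) ∂μ := by
    have h4 : x * (m / 2) + x * (m / 2) ≤ ∫⁻ K in A, ν (Zr r K) ∂μ + x * (m / 2) := by
      calc x * (m / 2) + x * (m / 2) = x * m := by
            rw [← mul_add, ENNReal.add_halves]
        _ ≤ _ := h1
        _ = _ := e2
        _ ≤ _ := by gcongr
    exact (ENNReal.add_le_add_iff_right hfin).mp h4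
  have hx2 : x ^ 2 ≠ 0 := pow_ne_zero 2 hx0
  have hx2t : x ^ 2 ≠ ⊤ := ENNReal.pow_ne_top hxt
  rw [← ENNReal.mul_le_mul_iff_right hx2 hx2t]
  calc x ^ 2 * (m / 2) ^ 2 = (x * (m / 2)) ^ 2 := by ring
    _ ≤ (∫⁻ K in A, ν (Zr r K) ∂μ) ^ 2 := by gcongr
    _ ≤ _ := e1
    _ ≤ (x ^ 2 * V) * μ A := by gcongr
    _ = _ := by ring

/-- the good event has probability bounded below -/
theorem prob_GG {μ : Measure (NonemptyCompacts ℂ)} [IsProbabilityMeasure μ] (ν : Measure ℂ)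
    [IsFiniteMeasure ν] {m V W : ℝ≥0∞} (hm0 : m ≠ 0) (hm : m ≠ ⊤) (hV : V ≠ ⊤) (hW : W ≠ ⊤) :
    ∃ p L : ℝ≥0∞, p ≠ 0 ∧ L ≠ ⊤ ∧ ∀ (t r : ℝ) (x : ℝ≥0∞), x ≠ 0 → x ≠ ⊤ →
      x * m ≤ ∫⁻ K, ν (Zr r K) ∂μ → ∫⁻ K, ν (Zr r K) ^ 2 ∂μ ≤ x ^ 2 * V →
      ∫⁻ K, En t ν (Zr r K) ∂μ ≤ x ^ 2 * W →
      p ≤ μ (GG ν t r (x * (m / 2)) (x ^ 2 * L)) := by
  have hm2 : m / 2 ≠ 0 := (ENNReal.div_pos hm0 (by norm_num)).ne'
  have hm2t : m / 2 ≠ ⊤ := ENNReal.div_ne_top hm (by norm_num)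
  set p1 : ℝ≥0∞ := (m / 2) ^ 2 / (V + 1) with hp1
  have hV1 : V + 1 ≠ 0 := by simp
  have hV1t : V + 1 ≠ ⊤ := by simp [hV]
  have hp10 : p1 ≠ 0 := (ENNReal.div_pos (pow_ne_zero 2 hm2) hV1t).ne'
  have hp1t : p1 ≠ ⊤ := ENNReal.div_ne_top (ENNReal.pow_ne_top hm2t) hV1
  have hp2 : p1 / 2 ≠ 0 := (ENNReal.div_pos hp10 (by norm_num)).ne'
  have hp2t : p1 / 2 ≠ ⊤ := ENNReal.div_ne_top hp1t (by norm_num)
  refine ⟨p1 / 2, (W + 1) / (p1 / 2), hp2, ENNReal.div_ne_top (by simp [hW]) hp2, ?_⟩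
  intro t r x hx0 hxt h1 h2 h3
  set L : ℝ≥0∞ := (W + 1) / (p1 / 2) with hL
  have hL0 : L ≠ 0 := (ENNReal.div_pos (by simp) hp2t).ne'
  have hLt : L ≠ ⊤ := ENNReal.div_ne_top (by simp [hW]) hp2
  have e1 := pz ν hx0 hxt hm h1 h2
  set A : Set (NonemptyCompacts ℂ) := {K | x * (m / 2) ≤ ν (Zr r K)} with hA
  have e2 : p1 ≤ μ A := by
    rw [hp1]
    apply ENNReal.div_le_of_le_mul
    refine e1.trans ?_
    rw [mul_comm]
    gcongr
    exact le_self_add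
  set B : Set (NonemptyCompacts ℂ) := {K | x ^ 2 * L < En t ν (Zr r K)} with hB
  have hBm : MeasurableSet B := measurableSet_lt measurable_const (measurable_En_Zr t r ν)
  have hx2 : x ^ 2 ≠ 0 := pow_ne_zero 2 hx0
  have hx2t : x ^ 2 ≠ ⊤ := ENNReal.pow_ne_top hxt
  have e3 : μ B ≤ p1 / 2 := by
    have h4 : x ^ 2 * L * μ B ≤ x ^ 2 * W := by
      refine le_trans ?_ h3
      refine le_trans ?_ (mul_meas_ge_le_lintegral (measurable_En_Zr t r ν) (x ^ 2 * L))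
      gcongr
      intro K hK
      have h9 : x ^ 2 * L < En t ν (Zr r K) := hK
      exact h9.le
    rw [mul_assoc, ENNReal.mul_le_mul_iff_right hx2 hx2t] at h4
    have h5 : L * μ B ≤ L * (p1 / 2) := by
      refine h4.trans ?_
      rw [hL, ENNReal.div_mul_cancel hp2 hp2t]
      exact le_self_add
    exact (ENNReal.mul_le_mul_iff_right hL0 hLt).mp h5
  have e4 : A \ B ⊆ GG ν t r (x * (m / 2)) (x ^ 2 * L) := by
    rintro K ⟨hK1, hK2⟩
    exact ⟨hK1, not_lt.mp hK2⟩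
  refine le_trans ?_ (measure_mono e4)
  refine le_trans ?_ (le_measure_sdiff)
  have h6 : p1 - p1 / 2 = p1 / 2 := ENNReal.sub_half hp1t
  rw [← h6]
  exact tsub_le_tsub e2 e3

/-- on the good event every cover of the thickened set is large -/
theorem good_cover {ν : Measure ℂ} {S : Set ℂ} (hν : ν Sᶜ = 0)
    (hSm : MeasurableSet S) {t r : ℝ} (ht : 0 < t) {x a L : ℝ≥0∞} (hx0 : x ≠ 0) (hxt : x ≠ ⊤)
    {K : NonemptyCompacts ℂ} (hK : K ∈ GG ν t r (x * a) (x ^ 2 * L)) (s : Finset (ℂ × ℝ))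
    (hs : ∀ p ∈ s, 0 < p.2) (hc : Zr r K ∩ S ⊆ ⋃ p ∈ s, ball p.1 p.2) :
    (a ^ 2 / L).toReal / 2 ^ t ≤ ∑ p ∈ s, p.2 ^ t := by
  obtain ⟨h1, h2⟩ := hK
  have hZm : MeasurableSet (Zr r K) := (isClosed_Zr r K).measurableSet
  have e0 : ν (Zr r K ∩ S) = ν (Zr r K) := by
    have h3 := measure_inter_add_sdiff (μ := ν) (Zr r K) hSm
    have h4 : ν (Zr r K \ S) = 0 := measure_mono_null (fun z hz => hz.2) hν
    rw [h4, add_zero] at h3
    exact h3
  have e1 := cover_energy ht ν s hs (Zr r K ∩ S) (hZm.inter hSm) hc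
  rw [e0] at e1
  have e2 : En t ν (Zr r K ∩ S) ≤ x ^ 2 * L := (En_mono t ν inter_subset_left).trans h2
  have hx2 : x ^ 2 ≠ 0 := pow_ne_zero 2 hx0
  have hx2t : x ^ 2 ≠ ⊤ := ENNReal.pow_ne_top hxt
  have e3 : a ^ 2 ≤ ENNReal.ofReal (∑ p ∈ s, (2 * p.2) ^ t) * L := by
    rw [← ENNReal.mul_le_mul_iff_right hx2 hx2t]
    calc x ^ 2 * a ^ 2 = (x * a) ^ 2 := by ring
      _ ≤ ν (Zr r K) ^ 2 := by gcongr
      _ ≤ _ := e1
      _ ≤ ENNReal.ofReal (∑ p ∈ s, (2 * p.2) ^ t) * (x ^ 2 * L) := by gcongr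
      _ = _ := by ring
  have hsum : 0 ≤ ∑ p ∈ s, (2 * p.2) ^ t :=
    Finset.sum_nonneg fun p hp => by have := hs p hp; positivity
  have e4 : a ^ 2 / L ≤ ENNReal.ofReal (∑ p ∈ s, (2 * p.2) ^ t) := ENNReal.div_le_of_le_mul e3
  have e5 := ENNReal.toReal_le_of_le_ofReal hsum e4
  have e6 : ∑ p ∈ s, (2 * p.2) ^ t = 2 ^ t * ∑ p ∈ s, p.2 ^ t := by
    rw [Finset.mul_sum]
    refine Finset.sum_congr rfl fun p hp => ?_
    rw [Real.mul_rpow (by norm_num) (hs p hp).le]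
  rw [e6] at e5
  rw [div_le_iff₀' (by positivity)]
  exact e5

theorem c1_pos {a L : ℝ≥0∞} (ha0 : a ≠ 0) (ha : a ≠ ⊤) (hL0 : L ≠ 0) (hLt : L ≠ ⊤) (t : ℝ) :
    0 < (a ^ 2 / L).toReal / 2 ^ t := by
  have h1 : 0 < (a ^ 2 / L).toReal := by
    apply ENNReal.toReal_pos (ENNReal.div_pos (pow_ne_zero 2 ha0) hLt).ne'
    exact ENNReal.div_ne_top (ENNReal.pow_ne_top ha) hL0
  positivity

/-- a limsup of events has at least the probability of the events -/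
theorem limsup_ge {Ω : Type*} [MeasurableSpace Ω] (μ : Measure Ω) [IsFiniteMeasure μ]
    {G : ℕ → Set Ω} (hG : ∀ n, MeasurableSet (G n)) {p : ℝ≥0∞} (hp : ∀ n, p ≤ μ (G n)) :
    p ≤ μ {ω | ∀ N, ∃ n ≥ N, ω ∈ G n} := by
  set B : ℕ → Set Ω := fun N => ⋃ n ∈ {n | N ≤ n}, G n with hB
  have hBm : ∀ n, NullMeasurableSet (B n) μ := fun n =>
    (MeasurableSet.biUnion (to_countable _) fun k _ => hG k).nullMeasurableSet
  have hBa : Antitone B := by
    intro m n hmn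
    exact biUnion_subset_biUnion_left fun k hk => le_trans hmn hk
  have ht := tendsto_measure_iInter_atTop (μ := μ) hBm hBa ⟨0, measure_ne_top _ _⟩
  have hI : ⋂ n, B n = {ω | ∀ N, ∃ n ≥ N, ω ∈ G n} := by
    ext ω
    simp only [hB, mem_iInter, mem_iUnion, mem_ofPred_eq, exists_prop, ge_iff_le]
  rw [hI] at ht
  refine ge_of_tendsto' ht fun n => ?_
  refine (hp n).trans (measure_mono ?_)
  exact subset_biUnion_of_mem (u := G) (show n ∈ {k | n ≤ k} from le_refl n)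

/-- a finite open cover of `K ∩ S` covers the points of `S` near `K` -/
theorem cover_near {S : Set ℂ} (hS : IsCompact S) (K : NonemptyCompacts ℂ) {U : Set ℂ}
    (hU : IsOpen U) (h : (K : Set ℂ) ∩ S ⊆ U) : ∃ ε > 0, ∀ r < ε, Zr r K ∩ S ⊆ U := by
  rcases (S \ U).eq_empty_or_nonempty with h1 | h1
  · refine ⟨1, one_pos, fun r _ z hz => ?_⟩
    by_contra h2
    have : z ∈ S \ U := ⟨hz.2, h2⟩
    rw [h1] at this
    exact this
  · have hc : IsCompact (S \ U) := hS.diff hU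
    have hcont : Continuous fun z : ℂ => hd z K := continuous_infDist_pt _
    obtain ⟨z0, hz0, hmin⟩ := hc.exists_isMinOn h1 hcont.continuousOn
    have hpos : 0 < hd z0 K := by
      have h3 : z0 ∉ (K : Set ℂ) := fun h4 => hz0.2 (h ⟨h4, hz0.1⟩)
      exact (K.isCompact.isClosed.notMem_iff_infDist_pos K.nonempty).mp h3
    refine ⟨hd z0 K, hpos, fun r hr z hz => ?_⟩
    by_contra h2
    have h4 : hd z0 K ≤ hd z K := hmin ⟨hz.2, h2⟩
    have h5 : hd z K ≤ r := hz.1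
    linarith

/-- the dimension of the intersection with a fixed compact set is large with positive
  probability -/
theorem dim_lower {μ : Measure (NonemptyCompacts ℂ)} [IsProbabilityMeasure μ] {S : Set ℂ}
    (hS : IsCompact S) {q c C r0 t : ℝ} (hq : 0 ≤ q) (hc : 0 < c) (hC : 0 ≤ C) (hr0 : 0 < r0)
    (ht : 0 < t) (h1 : H1 μ S q c r0) (h2 : H2 μ S q C r0) (ν : Measure ℂ) [IsFiniteMeasure ν]
    (hν : ν Sᶜ = 0) (hν0 : ν univ ≠ 0) (hE : energy q ν ≠ ⊤) (hE2 : energy (q + t) ν ≠ ⊤) :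
    0 < μ {K | ENNReal.ofReal t ≤ dimH ((K : Set ℂ) ∩ S)} := by
  set m : ℝ≥0∞ := ENNReal.ofReal c * ν univ with hm
  have hm0 : m ≠ 0 := mul_ne_zero (ENNReal.ofReal_pos.mpr hc).ne' hν0
  have hmt : m ≠ ⊤ := ENNReal.mul_ne_top ENNReal.ofReal_ne_top (measure_ne_top ν _)
  set V : ℝ≥0∞ := ENNReal.ofReal C * energy q ν with hV
  have hVt : V ≠ ⊤ := ENNReal.mul_ne_top ENNReal.ofReal_ne_top hE
  set W : ℝ≥0∞ := ENNReal.ofReal C * energy (q + t) ν with hW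
  have hWt : W ≠ ⊤ := ENNReal.mul_ne_top ENNReal.ofReal_ne_top hE2
  obtain ⟨p, L, hp0, hLt, hp⟩ := prob_GG (μ := μ) ν hm0 hmt hVt hWt
  set u : ℕ → ℝ := fun n => r0 * (1 / ((n : ℝ) + 2)) with hu
  have hu0 : ∀ n, 0 < u n := fun n => by simp only [hu]; positivity
  have hu1 : ∀ n, u n < r0 := fun n => by
    simp only [hu]
    have : (1 : ℝ) / (n + 2) < 1 := by
      rw [div_lt_one (by positivity)]
      have : (0 : ℝ) ≤ n := Nat.cast_nonneg n
      linarith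
    nlinarith
  have hut : Tendsto u atTop (𝓝 0) := by
    have h3 : Tendsto (fun n : ℕ => (1 : ℝ) / ((n : ℝ) + 2)) atTop (𝓝 0) := by
      have h4 : Tendsto (fun n : ℕ => (n : ℝ) + 2) atTop atTop :=
        tendsto_atTop_add_const_right _ _ tendsto_natCast_atTop_atTop
      have h5 := tendsto_inv_atTop_zero.comp h4
      simp_rw [one_div]
      exact h5
    have h6 := h3.const_mul r0
    rw [mul_zero] at h6
    exact h6
  set x : ℕ → ℝ≥0∞ := fun n => ENNReal.ofReal ((u n) ^ q) with hx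
  have hx0 : ∀ n, x n ≠ 0 := fun n =>
    (ENNReal.ofReal_pos.mpr (Real.rpow_pos_of_pos (hu0 n) q)).ne'
  have hxt : ∀ n, x n ≠ ⊤ := fun n => ENNReal.ofReal_ne_top
  set G : ℕ → Set (NonemptyCompacts ℂ) := fun n =>
    GG ν t (u n) (x n * (m / 2)) ((x n) ^ 2 * L) with hG
  have hGp : ∀ n, p ≤ μ (G n) := by
    intro n
    apply hp t (u n) (x n) (hx0 n) (hxt n)
    · exact first_ge hc.le h1 ν hν (hu0 n) (hu1 n)
    · have h3 := En_le hq hC le_rfl h2 ν hν (hu0 n) (hu1 n)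
      simp_rw [En_zero] at h3
      rw [add_zero] at h3
      exact h3
    · exact En_le hq hC ht.le h2 ν hν (hu0 n) (hu1 n)
  have hlim := limsup_ge μ (fun n => measurableSet_GG ν t (u n) _ _) hGp
  refine lt_of_lt_of_le (pos_iff_ne_zero.mpr hp0) (hlim.trans (measure_mono ?_))
  intro K hK
  have hm20 : m / 2 ≠ 0 := (ENNReal.div_pos hm0 (by norm_num)).ne'
  have hm2t : m / 2 ≠ ⊤ := ENNReal.div_ne_top hmt (by norm_num)
  -- the constant is positive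
  have hSm : MeasurableSet S := hS.isClosed.measurableSet
  have hL0 : L ≠ 0 := by
    rintro rfl
    obtain ⟨n, -, hn⟩ := hK 0
    obtain ⟨h3, h4⟩ := hn
    rw [mul_zero, nonpos_iff_eq_zero] at h4
    have h5 := sq_le_En_ball ht ν (Zr (u n) K ∩ S)
    obtain ⟨R, hR0, hR⟩ : ∃ R > 0, S ⊆ ball 0 R := by
      obtain ⟨R, hR⟩ := hS.isBounded.subset_ball 0
      exact ⟨max R 1, lt_max_of_lt_right one_pos, hR.trans (ball_subset_ball (le_max_left _ _))⟩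
    have h6 := h5 0 ((isClosed_Zr _ K).measurableSet.inter hSm) hR0
      (inter_subset_right.trans hR)
    have h7 : En t ν (Zr (u n) K ∩ S) = 0 :=
      le_antisymm ((En_mono t ν inter_subset_left).trans h4.le) (zero_le)
    rw [h7, mul_zero, nonpos_iff_eq_zero, pow_eq_zero_iff (by norm_num)] at h6
    have e0 : ν (Zr (u n) K ∩ S) = ν (Zr (u n) K) := by
      have h8 := measure_inter_add_sdiff (μ := ν) (Zr (u n) K) hSm
      have h9 : ν (Zr (u n) K \ S) = 0 := measure_mono_null (fun z hz => hz.2) hν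
      rw [h9, add_zero] at h8
      exact h8
    rw [e0] at h6
    rw [h6, nonpos_iff_eq_zero] at h3
    exact mul_ne_zero (hx0 n) hm20 h3
  have hc1 := c1_pos hm20 hm2t hL0 hLt t
  refine H389R2.Dim.le_dimH_of_good ht hc1 (K.isCompact.inter_right hS.isClosed) ?_
  intro δ hδ s hs hcov
  obtain ⟨ε, hε, hε2⟩ := cover_near hS K (isOpen_biUnion fun p _ => isOpen_ball) hcov
  obtain ⟨N, hN⟩ := (hut.eventually (gt_mem_nhds hε)).exists_forall_of_atTop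
  obtain ⟨n, hn, hKn⟩ := hK N
  exact good_cover hν hSm ht (hx0 n) (hxt n) hKn s
    (fun p hp => hδ.trans_le (hs p hp)) (hε2 _ (hN n hn))

end Pool.Agent.Run7.h885.FS
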