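import Pool.Agent.H389R2.Dim.Lower
import Pool.Agent.Run7.h885.FS.Defs

/-!
Energy and random compact sets: the second moment method.
-/

namespace Pool.Agent.Run7.h885.FS

open MeasureTheory Set Metric Filter Topology TopologicalSpace
open scoped ENNReal NNReal

/-! ## Frostman measures have finite energy -/

theorem inv_le_sum {a : ℝ} (ha : 0 < a) (z w : ℂ) :
    (edist z w) ^ (-a) ≤ 1 + ∑' k : ℕ, ENNReal.ofReal (2 ^ (((k : ℝ) + 1) * a)) *
      (closedBall z ((2 : ℝ)⁻¹ ^ k)).indicator 1 w := by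
  rcases eq_or_ne z w with rfl | hzw
  · have h1 : ∑' k : ℕ, ENNReal.ofReal (2 ^ (((k : ℝ) + 1) * a)) *
      (closedBall z ((2 : ℝ)⁻¹ ^ k)).indicator 1 z = ⊤ := by
      rw [eq_top_iff, ← ENNReal.tsum_const_eq_top_of_ne_zero (α := ℕ) (c := 1) one_ne_zero]
      refine ENNReal.tsum_le_tsum fun k => ?_
      rw [indicator_of_mem (mem_closedBall_self (by positivity)), Pi.one_apply, mul_one]
      rw [← ENNReal.ofReal_one]
      apply ENNReal.ofReal_le_ofReal
      exact Real.one_le_rpow (by norm_num) (by positivity)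
    rw [h1]; simp
  · have hd : 0 < dist z w := dist_pos.mpr hzw
    rw [edist_dist, ENNReal.ofReal_rpow_of_pos hd]
    rcases le_or_gt 1 (dist z w) with h1 | h1
    · refine le_trans ?_ le_self_add
      rw [← ENNReal.ofReal_one]
      exact ENNReal.ofReal_le_ofReal (Real.rpow_le_one_of_one_le_of_nonpos h1 (by linarith))
    · obtain ⟨k, hk1, hk2⟩ := exists_nat_pow_near_of_lt_one hd h1.le
        (by norm_num : (0 : ℝ) < 2⁻¹) (by norm_num : (2 : ℝ)⁻¹ < 1)
      refine le_trans ?_ le_add_self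
      refine le_trans ?_ (ENNReal.le_tsum k)
      rw [indicator_of_mem (by rw [mem_closedBall, dist_comm]; exact hk2), Pi.one_apply, mul_one]
      apply ENNReal.ofReal_le_ofReal
      have h2 : (dist z w) ^ (-a) ≤ (((2 : ℝ)⁻¹) ^ (k + 1)) ^ (-a) :=
        Real.rpow_le_rpow_of_nonpos (by positivity) hk1.le (by linarith)
      refine h2.trans (le_of_eq ?_)
      rw [← Real.rpow_natCast, Real.inv_rpow (by norm_num), ← Real.rpow_neg (by norm_num),
        ← Real.rpow_mul (by norm_num)]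
      congr 1
      push_cast; ring

theorem energy_lt_top {a s A : ℝ} (ha : 0 < a) (has : a < s) (hA : 0 ≤ A) {ν : Measure ℂ}
    [IsFiniteMeasure ν]
    (hν : ∀ (z : ℂ) (r : ℝ), 0 < r → ν (closedBall z r) ≤ ENNReal.ofReal (A * r ^ s)) :
    energy a ν < ⊤ := by
  have h1 : ∀ z, ∫⁻ w, (edist z w) ^ (-a) ∂ν ≤
      ν univ + ENNReal.ofReal (A * 2 ^ a) * ∑' k : ℕ, (ENNReal.ofReal (2 ^ (a - s))) ^ k := by
    intro z
    refine (lintegral_mono (inv_le_sum ha z)).trans ?_
    rw [lintegral_add_left measurable_const, lintegral_const, one_mul]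
    refine add_le_add le_rfl ?_
    rw [lintegral_tsum]
    · rw [← ENNReal.tsum_mul_left]
      refine ENNReal.tsum_le_tsum fun k => ?_
      rw [lintegral_const_mul _ (measurable_one.indicator measurableSet_closedBall),
        lintegral_indicator_one measurableSet_closedBall]
      refine (mul_le_mul_right (hν z _ (by positivity)) _).trans ?_
      rw [← ENNReal.ofReal_mul (by positivity), ← ENNReal.ofReal_pow (by positivity),
        ← ENNReal.ofReal_mul (by positivity)]
      apply ENNReal.ofReal_le_ofReal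
      apply le_of_eq
      have e1 : ((2 : ℝ)⁻¹ ^ k) ^ s = 2 ^ (-(k : ℝ) * s) := by
        rw [← Real.rpow_natCast, Real.inv_rpow (by norm_num), ← Real.rpow_neg (by norm_num),
          ← Real.rpow_mul (by norm_num)]
      have e2 : ((2 : ℝ) ^ (a - s)) ^ k = 2 ^ ((a - s) * k) := by
        rw [← Real.rpow_natCast, ← Real.rpow_mul (by norm_num)]
      rw [e1, e2]
      have e3 : (2 : ℝ) ^ (((k : ℝ) + 1) * a) * (A * 2 ^ (-(k : ℝ) * s)) =
        A * (2 ^ (((k : ℝ) + 1) * a) * 2 ^ (-(k : ℝ) * s)) := by ring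
      rw [e3, mul_assoc A, ← Real.rpow_add (by norm_num), ← Real.rpow_add (by norm_num)]
      congr 2; ring
    · intro k
      exact ((measurable_one.indicator measurableSet_closedBall).const_mul _).aemeasurable
  unfold energy
  refine (lintegral_mono h1).trans_lt ?_
  rw [lintegral_const]
  apply ENNReal.mul_lt_top _ (measure_lt_top ν univ)
  apply ENNReal.add_lt_top.mpr ⟨measure_lt_top ν univ, ?_⟩
  apply ENNReal.mul_lt_top ENNReal.ofReal_lt_top
  rw [ENNReal.tsum_geometric]
  have h3 : ENNReal.ofReal (2 ^ (a - s)) < 1 := by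
    rw [← ENNReal.ofReal_one]
    exact (ENNReal.ofReal_lt_ofReal_iff one_pos).mpr
      (Real.rpow_lt_one_of_one_lt_of_neg (by norm_num) (by linarith))
  rw [ENNReal.inv_lt_top]
  exact tsub_pos_of_lt h3

/-! ## Energy and covers -/

theorem two_mul_le_of_sq {c x y : ℝ≥0∞} (h : c ^ 2 ≤ x * y) : 2 * c ≤ x + y := by
  rcases eq_or_ne x ⊤ with rfl | hx
  · simp
  rcases eq_or_ne y ⊤ with rfl | hy
  · simp
  have hc : c ≠ ⊤ := by
    rintro rfl
    have : (⊤ : ℝ≥0∞) ^ 2 ≤ x * y := h
    rw [ENNReal.top_pow (by norm_num)] at this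
    exact absurd (top_le_iff.mp this) (ENNReal.mul_ne_top hx hy)
  lift x to ℝ≥0 using hx
  lift y to ℝ≥0 using hy
  lift c to ℝ≥0 using hc
  norm_cast at h ⊢
  have h1 : (2 * c) ^ 2 ≤ (x + y) ^ 2 := by
    have h2 : (c : ℝ) ^ 2 ≤ x * y := by exact_mod_cast h
    have h3 : (2 * (c : ℝ)) ^ 2 ≤ (x + y) ^ 2 := by nlinarith [sq_nonneg ((x : ℝ) - y)]
    exact_mod_cast h3
  exact (pow_le_pow_iff_left₀ (by positivity) (by positivity) two_ne_zero).mp h1

theorem sq_add_le {a b p q E F : ℝ≥0∞} (h1 : a ^ 2 ≤ p * E) (h2 : b ^ 2 ≤ q * F) :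
    (a + b) ^ 2 ≤ (p + q) * (E + F) := by
  have h3 : 2 * (a * b) ≤ p * F + q * E := by
    apply two_mul_le_of_sq
    calc (a * b) ^ 2 = a ^ 2 * b ^ 2 := by ring
      _ ≤ (p * E) * (q * F) := mul_le_mul' h1 h2
      _ = (p * F) * (q * E) := by ring
  calc (a + b) ^ 2 = a ^ 2 + b ^ 2 + 2 * (a * b) := by ring
    _ ≤ p * E + q * F + (p * F + q * E) := add_le_add (add_le_add h1 h2) h3
    _ = (p + q) * (E + F) := by ring

/-- the local energy of a set -/
noncomputable def En (t : ℝ) (ν : Measure ℂ) (A : Set ℂ) : ℝ≥0∞ :=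
  ∫⁻ z in A, ∫⁻ w in A, (edist z w) ^ (-t) ∂ν ∂ν

theorem En_add_le (t : ℝ) (ν : Measure ℂ) {A B : Set ℂ} (hA : MeasurableSet A)
    (hB : MeasurableSet B) (hAB : Disjoint A B) : En t ν A + En t ν B ≤ En t ν (A ∪ B) := by
  unfold En
  rw [lintegral_union hB hAB]
  refine add_le_add ?_ ?_
  · exact lintegral_mono fun z => lintegral_mono_set subset_union_left
  · exact lintegral_mono fun z => lintegral_mono_set subset_union_right

theorem En_mono (t : ℝ) (ν : Measure ℂ) {A B : Set ℂ} (h : A ⊆ B) : En t ν A ≤ En t ν B := by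
  unfold En
  refine (lintegral_mono_set h).trans ?_
  exact lintegral_mono fun z => lintegral_mono_set h

theorem sq_le_En_ball {t : ℝ} (ht : 0 < t) (ν : Measure ℂ) (A : Set ℂ) (x : ℂ) {ρ : ℝ}
    (hA : MeasurableSet A) (hρ : 0 < ρ) (h : A ⊆ ball x ρ) : ν A ^ 2 ≤ ENNReal.ofReal ((2 * ρ) ^ t) * En t ν A := by
  have h1 : ENNReal.ofReal ((2 * ρ) ^ (-t)) * (ν A * ν A) ≤ En t ν A := by
    unfold En
    have h2 : ∫⁻ _ in A, ∫⁻ _ in A, ENNReal.ofReal ((2 * ρ) ^ (-t)) ∂ν ∂ν =
        ENNReal.ofReal ((2 * ρ) ^ (-t)) * (ν A * ν A) := by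
      simp only [lintegral_const, Measure.restrict_apply, MeasurableSet.univ, univ_inter]
      ring
    rw [← h2]
    apply setLIntegral_mono' hA
    intro z hz
    apply setLIntegral_mono' hA
    intro w hw
    have h3 : edist z w ≤ ENNReal.ofReal (2 * ρ) := by
      rw [edist_dist]
      apply ENNReal.ofReal_le_ofReal
      have h4 := mem_ball.mp (h hz)
      have h5 := mem_ball.mp (h hw)
      have h6 := dist_triangle_right z w x
      linarith
    rw [← ENNReal.ofReal_rpow_of_pos (by positivity)]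
    rw [ENNReal.rpow_neg, ENNReal.rpow_neg]
    exact ENNReal.inv_le_inv.mpr (ENNReal.rpow_le_rpow h3 ht.le)
  calc ν A ^ 2 = ENNReal.ofReal ((2 * ρ) ^ t) * (ENNReal.ofReal ((2 * ρ) ^ (-t)) *
        (ν A * ν A)) := by
        rw [← mul_assoc, ← ENNReal.ofReal_mul (by positivity), ← Real.rpow_add (by positivity)]
        simp [sq]
    _ ≤ _ := by gcongr

theorem cover_energy {t : ℝ} (ht : 0 < t) (ν : Measure ℂ) (s : Finset (ℂ × ℝ))
    (hs : ∀ p ∈ s, 0 < p.2) : ∀ A : Set ℂ, MeasurableSet A → A ⊆ ⋃ p ∈ s, ball p.1 p.2 →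
    ν A ^ 2 ≤ ENNReal.ofReal (∑ p ∈ s, (2 * p.2) ^ t) * En t ν A := by
  classical
  induction s using Finset.induction_on with
  | empty =>
    intro A _ hA
    have : A = ∅ := by simpa using hA
    simp [this]
  | insert p s hp ih =>
    intro A hAm hA
    have hs' : ∀ p ∈ s, 0 < p.2 := fun q hq => hs q (Finset.mem_insert_of_mem hq)
    have hp0 : 0 < p.2 := hs p (Finset.mem_insert_self _ _)
    rw [Finset.sum_insert hp, ENNReal.ofReal_add (by positivity)
      (Finset.sum_nonneg fun q hq => by have := hs' q hq; positivity)]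
    have hm1 : MeasurableSet (A ∩ ball p.1 p.2) := hAm.inter measurableSet_ball
    have hm2 : MeasurableSet (A \ ball p.1 p.2) := hAm.diff measurableSet_ball
    have h1 := sq_le_En_ball ht ν (A ∩ ball p.1 p.2) p.1 hm1 hp0 inter_subset_right
    have h2 := ih hs' (A \ ball p.1 p.2) hm2 (by
      intro x hx
      have h3 := hA hx.1
      simp only [Finset.mem_insert, iUnion_iUnion_eq_or_left, mem_union] at h3
      exact h3.resolve_left hx.2)
    have h4 : ν A = ν (A ∩ ball p.1 p.2) + ν (A \ ball p.1 p.2) :=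
      (measure_inter_add_sdiff A measurableSet_ball).symm
    rw [h4]
    refine (sq_add_le h1 h2).trans ?_
    gcongr
    refine (En_add_le t ν hm1 hm2 ?_).trans (En_mono t ν ?_)
    · exact disjoint_sdiff_right.mono_left inter_subset_right
    · exact union_subset inter_subset_left sdiff_subset

end Pool.Agent.Run7.h885.FS
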