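import Pool.Agent.Run7.h885.FS.Fro
import Pool.Agent.Run7.h885.FS.TwoDisc
import Pool.Agent.Results.MP_216314_pr.TraceGreenFunction

/-!
One-point and two-point bounds for the limits of the exploration path near a compact set.
-/

namespace Pool.Agent.Run7.h885.FS

open H934E MeasureTheory TopologicalSpace Filter Topology Set Metric
open scoped ENNReal

theorem rx_pos (R : Rect) {z : ℂ} (hz : z ∈ R.D) : 0 < R.rx z := by
  obtain ⟨h1, h2, h3, h4⟩ := hz
  unfold Rect.rx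
  exact lt_min (by linarith) (by linarith)

theorem ry_pos (R : Rect) {z : ℂ} (hz : z ∈ R.D) : 0 < R.ry z := by
  obtain ⟨h1, h2, h3, h4⟩ := hz
  unfold Rect.ry
  exact lt_min (by linarith) (by linarith)

theorem rd_pos (R : Rect) {z : ℂ} (hz : z ∈ R.D) : 0 < R.rd z :=
  lt_min (rx_pos R hz) (ry_pos R hz)

theorem ball_rd (R : Rect) (z : ℂ) : ball z (R.rd z) ⊆ R.D := by
  intro w hw
  rw [mem_ball, Complex.dist_eq] at hw
  have h1 : |w.re - z.re| < R.rd z := by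
    simpa using (Complex.abs_re_le_norm (w - z)).trans_lt hw
  have h2 : |w.im - z.im| < R.rd z := by
    simpa using (Complex.abs_im_le_norm (w - z)).trans_lt hw
  have h3 : R.rd z ≤ z.re + R.A := (min_le_left _ _).trans (min_le_left _ _)
  have h4 : R.rd z ≤ R.B - z.re := (min_le_left _ _).trans (min_le_right _ _)
  have h5 : R.rd z ≤ z.im := (min_le_right _ _).trans (min_le_left _ _)
  have h6 : R.rd z ≤ R.H - z.im := (min_le_right _ _).trans (min_le_right _ _)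
  rw [abs_lt] at h1 h2
  exact ⟨by linarith [h1.1], by linarith [h1.2], by linarith [h2.1], by linarith [h2.2]⟩

theorem rx_cont (R : Rect) : Continuous R.rx := by
  unfold Rect.rx
  exact (Complex.continuous_re.add continuous_const).min (continuous_const.sub
    Complex.continuous_re)

theorem ry_cont (R : Rect) : Continuous R.ry := by
  unfold Rect.ry
  exact Complex.continuous_im.min (continuous_const.sub Complex.continuous_im)

theorem rd_cont (R : Rect) : Continuous R.rd := (rx_cont R).min (ry_cont R)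

theorem den_pos (R : Rect) {z : ℂ} (hz : z ∈ R.D) :
    0 < (‖z - R.pa‖ * (‖z - R.pa‖ + R.ra)) * (‖z‖ * (‖z‖ + R.rb)) := by
  obtain ⟨h1, h2, h3, h4⟩ := hz
  have ha : 0 < R.ra := lt_min (by linarith [R.ht1]) (by linarith [R.ht2])
  have hb : 0 < R.rb := lt_min R.hA R.hB
  have e1 : 0 < ‖z - R.pa‖ := by
    rw [norm_pos_iff, sub_ne_zero]
    rintro rfl
    have : R.pa.im = R.H := rfl
    linarith
  have e2 : 0 < ‖z‖ := by
    rw [norm_pos_iff]
    rintro rfl
    simp at h3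
  positivity

theorem Th_pos (R : Rect) {z : ℂ} (hz : z ∈ R.D) : 0 < R.Th z := by
  unfold Rect.Th
  have h1 := den_pos R hz
  have h2 := rx_pos R hz
  have h3 := ry_pos R hz
  have h4 := R.hH
  positivity

theorem Th_cont (R : Rect) : ContinuousOn R.Th R.D := by
  unfold Rect.Th
  refine ContinuousOn.div ?_ ?_ (fun z hz => (den_pos R hz).ne')
  · exact (((rx_cont R).mul (ry_cont R)).mul continuous_const).continuousOn
  · fun_prop

theorem mem_hd {z : ℂ} {r : ℝ} {K : NonemptyCompacts ℂ} :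
    ((K : Set ℂ) ∩ closedBall z r).Nonempty → hd z K ≤ r := by
  rintro ⟨w, hw, hwz⟩
  unfold hd
  refine (infDist_le_dist_of_mem hw).trans ?_
  rw [dist_comm]; exact hwz

theorem hd_mem {z : ℂ} {r : ℝ} (hr : 0 < r) {K : NonemptyCompacts ℂ} (h : hd z K ≤ r) :
    ((K : Set ℂ) ∩ ball z (2 * r)).Nonempty := by
  obtain ⟨k, hk, hk2⟩ := exists_dist_le h
  refine ⟨k, hk, ?_⟩
  rw [mem_ball, dist_comm]; linarith

theorem real_le {μ : Measure (NonemptyCompacts ℂ)} [IsFiniteMeasure μ]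
    {A : Set (NonemptyCompacts ℂ)} {x : ℝ} (h : x ≤ μ.real A) : ENNReal.ofReal x ≤ μ A := by
  rw [← ofReal_measureReal]
  exact ENNReal.ofReal_le_ofReal h

/-- one-point lower bound on a compact set -/
theorem one_point (R : Rect) {S : Set ℂ} (hS : IsCompact S) (hSD : S ⊆ R.D) :
    ∃ c r0 : ℝ, 0 < c ∧ 0 < r0 ∧ ∀ (δ : ℕ → ℝ) (hδ : ∀ i, 0 < δ i), Tendsto δ atTop (𝓝 0) →
      ∀ μ : ProbabilityMeasure (NonemptyCompacts ℂ),
        Tendsto (fun i => R.law (hδ i)) atTop (𝓝 μ) →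
        H1 (μ : Measure (NonemptyCompacts ℂ)) S (1/4) c r0 := by
  rcases S.eq_empty_or_nonempty with h0 | hne
  · refine ⟨1, 1, one_pos, one_pos, ?_⟩
    intro δ hδ hδ0 μ hμ z hz
    rw [h0] at hz
    exact absurd hz (notMem_empty z)
  set k : ℝ := max ((R.A + R.B) / R.H) (R.H / (R.A + R.B)) with hk
  have hAB : 0 < R.A + R.B := add_pos R.hA R.hB
  have hk1 : R.A + R.B ≤ k * R.H := by
    have : (R.A + R.B) / R.H ≤ k := le_max_left _ _
    rwa [div_le_iff₀ R.hH] at this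
  have hk2 : R.H ≤ k * (R.A + R.B) := by
    have : R.H / (R.A + R.B) ≤ k := le_max_right _ _
    rwa [div_le_iff₀ hAB] at this
  obtain ⟨c, C, hc, -, h⟩ :=
    Pool.Agent.Results.MP_216314_pr.TraceGreenFunction.result k
  obtain ⟨z0, hz0, hmin0⟩ := hS.exists_isMinOn hne (rd_cont R).continuousOn
  have hfc : ContinuousOn (fun z => R.Th z ^ ((1 : ℝ) / 3) / R.rd z ^ ((1 : ℝ) / 4)) S := by
    refine ContinuousOn.div ?_ ?_ ?_
    · exact ((Th_cont R).mono hSD).rpow_const (fun z _ => Or.inr (by norm_num))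
    · exact (rd_cont R).continuousOn.rpow_const (fun z _ => Or.inr (by norm_num))
    · intro z hz
      exact (Real.rpow_pos_of_pos (rd_pos R (hSD hz)) _).ne'
  obtain ⟨z1, hz1, hmin1⟩ := hS.exists_isMinOn hne hfc
  have hd0 := rd_pos R (hSD hz0)
  have hf1 : 0 < R.Th z1 ^ ((1 : ℝ) / 3) / R.rd z1 ^ ((1 : ℝ) / 4) := by
    have e1 := Th_pos R (hSD hz1)
    have e2 := rd_pos R (hSD hz1)
    positivity
  refine ⟨c * (R.Th z1 ^ ((1 : ℝ) / 3) / R.rd z1 ^ ((1 : ℝ) / 4)), R.rd z0 / 2, by positivity,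
    by positivity, ?_⟩
  intro δ hδ hδ0 μ hμ z hz r hr hr0
  have hrd0 : R.rd z0 ≤ R.rd z := hmin0 hz
  have hrdz := rd_pos R (hSD hz)
  have h3 := (h R hk1 hk2 δ hδ hδ0 μ hμ z r (hSD hz) hr (by linarith)).1
  have h4 : R.Th z1 ^ ((1 : ℝ) / 3) / R.rd z1 ^ ((1 : ℝ) / 4) ≤
      R.Th z ^ ((1 : ℝ) / 3) / R.rd z ^ ((1 : ℝ) / 4) := hmin1 hz
  have h5 : c * (R.Th z1 ^ ((1 : ℝ) / 3) / R.rd z1 ^ ((1 : ℝ) / 4)) * r ^ (1/4 : ℝ) ≤
      c * ((r / R.rd z) ^ ((1 : ℝ) / 4) * R.Th z ^ ((1 : ℝ) / 3)) := by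
    rw [Real.div_rpow hr.le hrdz.le]
    calc c * (R.Th z1 ^ ((1 : ℝ) / 3) / R.rd z1 ^ ((1 : ℝ) / 4)) * r ^ (1/4 : ℝ)
        ≤ c * (R.Th z ^ ((1 : ℝ) / 3) / R.rd z ^ ((1 : ℝ) / 4)) * r ^ (1/4 : ℝ) := by gcongr
      _ = _ := by ring
  refine (real_le (h5.trans h3)).trans (measure_mono ?_)
  intro K hK
  exact mem_hd hK

/-- two-point upper bound on a compact set -/
theorem two_point (R : Rect) {S : Set ℂ} (hS : IsCompact S) (hSD : S ⊆ R.D) :
    ∃ C : ℝ, 0 < C ∧ ∀ (δ : ℕ → ℝ) (hδ : ∀ i, 0 < δ i), Tendsto δ atTop (𝓝 0) →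
      ∀ μ : ProbabilityMeasure (NonemptyCompacts ℂ),
        Tendsto (fun i => R.law (hδ i)) atTop (𝓝 μ) → ∀ r0 : ℝ,
        H2 (μ : Measure (NonemptyCompacts ℂ)) S (1/4) C r0 := by
  rcases S.eq_empty_or_nonempty with h0 | hne
  · refine ⟨1, one_pos, ?_⟩
    intro δ hδ hδ0 μ hμ r0 z hz
    rw [h0] at hz
    exact absurd hz (notMem_empty z)
  obtain ⟨C, hC, h⟩ := two_disc_lim H985T.st_A
  obtain ⟨z0, hz0, hmin0⟩ := hS.exists_isMinOn hne (rd_cont R).continuousOn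
  have hd0 := rd_pos R (hSD hz0)
  set d := R.rd z0 with hdd
  set L := max (diam S) d with hL
  have hLpos : 0 < L := lt_max_of_lt_right hd0
  refine ⟨C * (4 * L / d ^ 2) ^ (1/4 : ℝ), by positivity, ?_⟩
  intro δ hδ hδ0 μ hμ r0 z hz w hw r hr _
  have hCr : 0 < C * (4 * L / d ^ 2) ^ (1/4 : ℝ) * r ^ (2 * (1/4) : ℝ) := by positivity
  rcases eq_or_ne z w with rfl | hzw
  · have h1 : (edist z z) ^ (-(1/4) : ℝ) = ⊤ := by
      rw [edist_self, ENNReal.zero_rpow_of_neg (by norm_num)]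
    rw [h1, ENNReal.mul_top (ENNReal.ofReal_pos.mpr hCr).ne']
    exact le_top
  have hDpos : 0 < dist z w := dist_pos.mpr hzw
  have hDL : dist z w ≤ L := (dist_le_diam_of_mem hS.isBounded hz hw).trans (le_max_left _ _)
  have hdL : d ≤ L := le_max_right _ _
  have hbz : ball z d ⊆ R.D := (ball_subset_ball (hmin0 hz)).trans (ball_rd R z)
  have hbw : ball w d ⊆ R.D := (ball_subset_ball (hmin0 hw)).trans (ball_rd R w)
  have h1 := h R δ hδ hδ0 μ hμ z w (2 * r) d (by positivity) hd0 hbz hbw hzw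
  have hsub : {K : NonemptyCompacts ℂ | hd z K ≤ r ∧ hd w K ≤ r} ⊆
      {K : NonemptyCompacts ℂ | ((K : Set ℂ) ∩ Metric.ball z (2 * r)).Nonempty} ∩
          {K : NonemptyCompacts ℂ | ((K : Set ℂ) ∩ Metric.ball w (2 * r)).Nonempty} :=
    fun K hK => ⟨hd_mem hr hK.1, hd_mem hr hK.2⟩
  refine (measure_mono hsub).trans (h1.trans ?_)
  rw [edist_dist, ENNReal.ofReal_rpow_of_pos hDpos, ← ENNReal.ofReal_mul hCr.le]
  apply ENNReal.ofReal_le_ofReal
  have hmin : dist z w * d / L ≤ min (dist z w) d := by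
    apply le_min
    · rw [div_le_iff₀ hLpos]; exact mul_le_mul_of_nonneg_left hdL hDpos.le
    · rw [div_le_iff₀ hLpos, mul_comm]; exact mul_le_mul_of_nonneg_left hDL hd0.le
  have hm0 : 0 < dist z w * d / L := by positivity
  have h2 : (2 * r / d) * (2 * r / min (dist z w) d) ≤
      (4 * L / d ^ 2) * (r ^ (2 : ℝ) * (dist z w)⁻¹) := by
    have h3 : 2 * r / min (dist z w) d ≤ 2 * r / (dist z w * d / L) :=
      div_le_div_of_nonneg_left (by positivity) hm0 hmin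
    calc (2 * r / d) * (2 * r / min (dist z w) d)
        ≤ (2 * r / d) * (2 * r / (dist z w * d / L)) := by gcongr
      _ = _ := by
        rw [Real.rpow_two]
        field_simp
        ring
  have h4 : ((2 * r / d) * (2 * r / min (dist z w) d)) ^ (1/4 : ℝ) ≤
      (4 * L / d ^ 2) ^ (1/4 : ℝ) * (r ^ (2 * (1/4) : ℝ) * (dist z w) ^ (-(1/4) : ℝ)) := by
    have h5 : 0 ≤ (2 * r / d) * (2 * r / min (dist z w) d) := by
      have : 0 < min (dist z w) d := lt_min hDpos hd0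
      positivity
    calc ((2 * r / d) * (2 * r / min (dist z w) d)) ^ (1/4 : ℝ)
        ≤ ((4 * L / d ^ 2) * (r ^ (2 : ℝ) * (dist z w)⁻¹)) ^ (1/4 : ℝ) :=
          Real.rpow_le_rpow h5 h2 (by norm_num)
      _ = _ := by
        rw [Real.mul_rpow (by positivity) (by positivity),
          Real.mul_rpow (by positivity) (by positivity), ← Real.rpow_mul hr.le,
          Real.inv_rpow hDpos.le, ← Real.rpow_neg hDpos.le]
  calc C * ((2 * r / d) * (2 * r / min (dist z w) d)) ^ (1/4 : ℝ)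
      ≤ C * ((4 * L / d ^ 2) ^ (1/4 : ℝ) *
        (r ^ (2 * (1/4) : ℝ) * (dist z w) ^ (-(1/4) : ℝ))) := by gcongr
    _ = _ := by ring

end Pool.Agent.Run7.h885.FS
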