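import Pool.Agent.H934R3.D74.T3

/-!
Localisation of the two-arm event to annuli, products over disjoint annuli.
-/

namespace Pool.Agent.Run7.h885.FS

open H974 H973 H12S H934E H934F Finset

/-- the annulus -/
noncomputable def Xa (S : Finset Edg) (v : Vtx) (m M : ℕ) : Finset Edg :=
  S ∩ (t3_B v (M : ℤ) \ t3_B v ((m : ℤ) - 1))

/-- the two-arm event of an annulus in the edge set `S` -/
def TwoA (S : Finset Edg) (v : Vtx) (r R : ℕ) (F : Finset Edg) : Prop :=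
  Crs v.1 v.2 r R ↑F ∧ DCrs v.1 v.2 r R (↑(S \ F) : Set Edg)

theorem crs_loc {v : Vtx} {ρ m M N : ℕ} (h1 : ρ ≤ m) (h2 : M ≤ N) {F : Set Edg}
    (h : Crs v.1 v.2 ρ N F) :
    Crs v.1 v.2 m M (F ∩ (↑(t3_B v (M : ℤ) \ t3_B v ((m : ℤ) - 1)) : Set Edg)) := by
  obtain ⟨x, y, hx, hy, hp⟩ := h
  unfold inR at hx
  obtain ⟨z, hz, hp1⟩ := t3_reach (G := F ∩ (↑(t3_B v (M : ℤ)) : Set Edg))
    (X := (↑(t3_B v (M : ℤ)) : Set Edg)) (t3_in v M)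
    (fun e _ he => by exact_mod_cast t3_edge_near he) subset_rfl hp (by unfold t3_in; omega)
  obtain ⟨y', hy', hp2⟩ := t3_reach
    (G := F ∩ (↑(t3_B v (M : ℤ) \ t3_B v ((m : ℤ) - 1)) : Set Edg))
    (X := (↑(t3_B v ((m : ℤ) - 1)) : Set Edg)ᶜ)
    (fun z => ¬ (v.1 - m ≤ z.1 ∧ z.1 ≤ v.1 + m ∧ v.2 - m ≤ z.2 ∧ z.2 ≤ v.2 + m))
    (fun e _ he => by
      intro h3
      have h4 := t3_edge_far (e := e) (Finset.mem_coe.1 h3)
      omega) (by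
      rw [Finset.coe_sdiff]
      exact fun e he => ⟨he.1.1, he.1.2, he.2⟩) hp1.symm (by omega)
  refine ⟨y', z, ?_, ?_, hp2.symm⟩
  · unfold inR; omega
  · unfold t3_in at hz; omega

theorem dcrs_loc {v : Vtx} {ρ m M N : ℕ} (h1 : ρ ≤ m) (h2 : M ≤ N) {F : Set Edg}
    (h : DCrs v.1 v.2 ρ N F) :
    DCrs v.1 v.2 m M (F ∩ (↑(t3_B v (M : ℤ) \ t3_B v ((m : ℤ) - 1)) : Set Edg)) := by
  obtain ⟨x, y, hx, hy, hp⟩ := h
  unfold inR at hx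
  obtain ⟨z, hz, hp1⟩ := t3_dreach (G := F ∩ (↑(t3_B v (M : ℤ)) : Set Edg))
    (X := (↑(t3_B v (M : ℤ)) : Set Edg)) (t3_in v M)
    (fun e _ he => by exact_mod_cast t3_edge_near' he) subset_rfl hp (by unfold t3_in; omega)
  obtain ⟨y', hy', hp2⟩ := t3_dreach
    (G := F ∩ (↑(t3_B v (M : ℤ) \ t3_B v ((m : ℤ) - 1)) : Set Edg))
    (X := (↑(t3_B v ((m : ℤ) - 1)) : Set Edg)ᶜ)
    (fun z => ¬ (v.1 - m ≤ z.1 ∧ z.1 ≤ v.1 + m ∧ v.2 - m ≤ z.2 ∧ z.2 ≤ v.2 + m))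
    (fun e _ he => by
      intro h3
      have h4 := t3_edge_far (e := e) (Finset.mem_coe.1 h3)
      omega) (by
      rw [Finset.coe_sdiff]
      exact fun e he => ⟨he.1.1, he.1.2, he.2⟩) hp1.symm (by omega)
  refine ⟨y', z, ?_, ?_, hp2.symm⟩
  · unfold inR; omega
  · unfold t3_in at hz; omega

theorem two_loc {S : Finset Edg} {v : Vtx} {ρ m M N : ℕ} (h1 : ρ ≤ m) (h2 : M ≤ N)
    {F : Finset Edg} (hF : F ⊆ S) (h : TwoA S v ρ N F) : t3_An (Xa S v m M) v m M F := by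
  obtain ⟨ha, hb⟩ := h
  have ha' := crs_loc h1 h2 ha
  have hb' := dcrs_loc h1 h2 hb
  constructor
  · obtain ⟨x, y, hx, hy, hp⟩ := ha'
    refine ⟨x, y, hx, hy, hp.mono ?_⟩
    intro e he
    rw [Finset.mem_coe, Finset.mem_inter]
    refine ⟨he.1, ?_⟩
    unfold Xa
    rw [Finset.mem_inter]
    exact ⟨hF he.1, he.2⟩
  · obtain ⟨x, y, hx, hy, hp⟩ := hb'
    refine ⟨x, y, hx, hy, hp.mono ?_⟩
    intro e he
    have h3 : e ∈ S \ F := he.1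
    rw [Finset.mem_sdiff] at h3
    rw [Finset.mem_coe, Finset.mem_sdiff]
    refine ⟨?_, h3.2⟩
    unfold Xa
    rw [Finset.mem_inter]
    exact ⟨h3.1, he.2⟩

/-- the annulus bound -/
def AB (C : ℝ) : Prop := ∀ r R : ℕ, 1 ≤ r → r ≤ R → ∀ (c1 c2 : ℤ) (S : Finset Edg),
    PQ (1/2) S (fun F => Crs c1 c2 r R ↑F ∧ DCrs c1 c2 r R (↑(S \ F) : Set Edg)) ≤
      C * ((r : ℝ) / R) ^ (1/4 : ℝ)

theorem Xa_sub (S : Finset Edg) (v : Vtx) (m M : ℕ) : Xa S v m M ⊆ S := Finset.inter_subset_left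

theorem Xa_sub_B (S : Finset Edg) (v : Vtx) (m M : ℕ) : Xa S v m M ⊆ t3_B v (M : ℤ) :=
  Finset.inter_subset_right.trans Finset.sdiff_subset

/-- two disjoint annuli -/
theorem two_prod {C : ℝ} (hC : 0 ≤ C) (hA : AB C) {S : Finset Edg} {v w : Vtx} {K ρ M N : ℕ}
    (hK : nd v w = K) (hM : 2 * M < K) (hρ : 1 ≤ ρ) (hρM : ρ ≤ M) (hMN : M ≤ N) :
    Q S (fun F => TwoA S v ρ N F ∧ TwoA S w ρ N F) ≤
      (C * ((ρ : ℝ) / M) ^ (1/4 : ℝ)) * (C * ((ρ : ℝ) / M) ^ (1/4 : ℝ)) := by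
  have d12 : Disjoint (Xa S v ρ M) (Xa S w ρ M) :=
    Finset.disjoint_of_subset_left (Xa_sub_B S v ρ M)
      (Finset.disjoint_of_subset_right (Xa_sub_B S w ρ M) (t3_disj hK hM))
  have h1 : Q S (fun F => TwoA S v ρ N F ∧ TwoA S w ρ N F) ≤
      Q S (fun F => t3_An (Xa S v ρ M) v ρ M F ∧ t3_An (Xa S w ρ M) w ρ M F) :=
    Q_mono (fun F hF h => ⟨two_loc le_rfl hMN hF h.1, two_loc le_rfl hMN hF h.2⟩)
  have h2 : Q S (fun F => t3_An (Xa S v ρ M) v ρ M F ∧ t3_An (Xa S w ρ M) w ρ M F) =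
      Q S (t3_An (Xa S v ρ M) v ρ M) * Q S (t3_An (Xa S w ρ M) w ρ M) :=
    Pr_indep (Xa_sub S v ρ M) (Xa_sub S w ρ M) d12 (fun F _ => t3_loc _ _ _ _ F)
      (fun F _ => t3_loc _ _ _ _ F)
  rw [h2] at h1
  refine h1.trans ?_
  exact mul_le_mul (t3_pr hA (Xa_sub S v ρ M) v hρ hρM) (t3_pr hA (Xa_sub S w ρ M) w hρ hρM)
    (Q_nonneg _ _) (by positivity)

/-- three disjoint annuli -/
theorem three_prod {C : ℝ} (hC : 0 ≤ C) (hA : AB C) {S : Finset Edg} {v w : Vtx} {K ρ M N : ℕ}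
    (hK : nd v w = K) (hM : 2 * M < K) (hρ : 1 ≤ ρ) (hρM : ρ ≤ M) (hMN : M ≤ N)
    (hKN : 2 * K ≤ N) :
    Q S (fun F => TwoA S v ρ N F ∧ TwoA S w ρ N F) ≤
      (C * ((ρ : ℝ) / M) ^ (1/4 : ℝ)) * ((C * ((ρ : ℝ) / M) ^ (1/4 : ℝ)) *
        (C * (((2 * K : ℕ) : ℝ) / N) ^ (1/4 : ℝ))) := by
  set X1 := Xa S v ρ M with hX1
  set X2 := Xa S w ρ M with hX2
  set X3 := Xa S v (2 * K) N with hX3
  have s1 : X1 ⊆ S := Xa_sub _ _ _ _
  have s2 : X2 ⊆ S := Xa_sub _ _ _ _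
  have s3 : X3 ⊆ S := Xa_sub _ _ _ _
  have d12 : Disjoint X1 X2 :=
    Finset.disjoint_of_subset_left (Xa_sub_B S v ρ M)
      (Finset.disjoint_of_subset_right (Xa_sub_B S w ρ M) (t3_disj hK hM))
  have hX3' : Disjoint (t3_B v (((2 * K : ℕ) : ℤ) - 1)) X3 :=
    Finset.disjoint_of_subset_right Finset.inter_subset_right Finset.disjoint_sdiff
  have d13 : Disjoint X1 X3 :=
    Finset.disjoint_of_subset_left ((Xa_sub_B S v ρ M).trans (t3_sub' hM)) hX3'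
  have d23 : Disjoint X2 X3 :=
    Finset.disjoint_of_subset_left ((Xa_sub_B S w ρ M).trans (t3_sub hK hM)) hX3'
  have i23 : Q S (fun F => t3_An X2 w ρ M F ∧ t3_An X3 v (2 * K) N F) =
      Q S (t3_An X2 w ρ M) * Q S (t3_An X3 v (2 * K) N) :=
    Pr_indep s2 s3 d23 (fun F _ => t3_loc _ _ _ _ F) (fun F _ => t3_loc _ _ _ _ F)
  have i1 : Q S (fun F => t3_An X1 v ρ M F ∧ (t3_An X2 w ρ M F ∧ t3_An X3 v (2 * K) N F)) =
      Q S (t3_An X1 v ρ M) * Q S (fun F => t3_An X2 w ρ M F ∧ t3_An X3 v (2 * K) N F) := by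
    apply Pr_indep s1 (Finset.union_subset s2 s3) (Finset.disjoint_union_right.2 ⟨d12, d13⟩)
      (fun F _ => t3_loc _ _ _ _ F)
    intro F _
    rw [t3_loc' (X := X2) Finset.subset_union_left (Y := X2 ∪ X3),
      t3_loc' (X := X3) Finset.subset_union_right (Y := X2 ∪ X3)]
  have h1 : Q S (fun F => TwoA S v ρ N F ∧ TwoA S w ρ N F) ≤
      Q S (fun F => t3_An X1 v ρ M F ∧ (t3_An X2 w ρ M F ∧ t3_An X3 v (2 * K) N F)) :=
    Q_mono (fun F hF h => ⟨two_loc le_rfl hMN hF h.1, two_loc le_rfl hMN hF h.2,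
      two_loc (by omega) le_rfl hF h.1⟩)
  rw [i1, i23] at h1
  refine h1.trans ?_
  refine mul_le_mul (t3_pr hA s1 v hρ hρM) ?_ ?_ (by positivity)
  · exact mul_le_mul (t3_pr hA s2 w hρ hρM) (t3_pr hA s3 v (by omega) (by omega))
      (Q_nonneg _ _) (by positivity)
  · exact mul_nonneg (Q_nonneg _ _) (Q_nonneg _ _)

end Pool.Agent.Run7.h885.FS
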