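import Pool.Agent.Run7.h885.FS.Second
import Pool.Agent.R280.HC.C0
import Pool.Agent.R280.HC.C0H

/-!
Measurability of the dimension of the intersection of a fixed set and several compact sets.
-/

namespace Pool.Agent.Run7.h885.FS

open MeasureTheory Set Metric Filter Topology TopologicalSpace
open scoped ENNReal NNReal

variable {ι : Type*}

/-- the points of `S` common to the compact sets `K i` -/
def II (S : Set ℂ) (K : ι → NonemptyCompacts ℂ) : Set ℂ := S ∩ ⋂ i, (K i : Set ℂ)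

theorem hd_nonpos {z : ℂ} {K : NonemptyCompacts ℂ} : hd z K ≤ 0 ↔ z ∈ (K : Set ℂ) := by
  constructor
  · intro h
    have h1 : infDist z (K : Set ℂ) = 0 := le_antisymm h infDist_nonneg
    exact (K.isCompact.isClosed.mem_iff_infDist_zero K.nonempty).mpr h1
  · intro h
    exact (infDist_zero_of_mem h).le

theorem isOpen_II_sub {S : Set ℂ} (hS : IsCompact S) {U : Set ℂ} (hU : IsOpen U) :
    IsOpen {K : ι → NonemptyCompacts ℂ | II S K ⊆ U} := by
  have hc : IsCompact (S \ U) := hS.diff hU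
  have : CompactSpace (S \ U : Set ℂ) := isCompact_iff_compactSpace.mp hc
  have hcl : IsClosed {p : (S \ U : Set ℂ) × (ι → NonemptyCompacts ℂ) |
      ∀ i, hd p.1 (p.2 i) ≤ 0} := by
    have h1 : {p : (S \ U : Set ℂ) × (ι → NonemptyCompacts ℂ) | ∀ i, hd p.1 (p.2 i) ≤ 0} =
        ⋂ i, {p : (S \ U : Set ℂ) × (ι → NonemptyCompacts ℂ) | hd p.1 (p.2 i) ≤ 0} := by
      ext p; simp only [mem_ofPred_eq, mem_iInter]
    rw [h1]
    refine isClosed_iInter fun i => ?_
    have h2 : Continuous fun p : (S \ U : Set ℂ) × (ι → NonemptyCompacts ℂ) =>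
        hd p.1 (p.2 i) :=
      Continuous.comp (g := fun p : ℂ × NonemptyCompacts ℂ => hd p.1 p.2)
        (f := fun p : (S \ U : Set ℂ) × (ι → NonemptyCompacts ℂ) => ((p.1 : ℂ), p.2 i))
        continuous_hd (by fun_prop)
    exact isClosed_le h2 continuous_const
  have himg := isClosedMap_snd_of_compactSpace _ hcl
  rw [← isClosed_compl_iff]
  convert himg using 1
  ext K
  simp only [mem_compl_iff, mem_ofPred_eq, mem_image, Prod.exists, exists_eq_right]
  constructor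
  · intro h
    rw [not_subset] at h
    obtain ⟨x, hx, hxU⟩ := h
    refine ⟨⟨x, hx.1, hxU⟩, fun i => ?_⟩
    exact hd_nonpos.mpr (mem_iInter.mp hx.2 i)
  · rintro ⟨x, hx⟩ h
    exact x.2.2 (h ⟨x.2.1, mem_iInter.mpr fun i => hd_nonpos.mp (hx i)⟩)

/-- finite covers with small sums -/
def OO (S : Set ℂ) (s : ℝ) (n : ℕ) : Set (ι → NonemptyCompacts ℂ) :=
  {K | ∃ F : Finset (ℂ × ℝ), ((∀ p ∈ F, 0 < p.2) ∧ ∑ p ∈ F, p.2 ^ s < 1 / ((n : ℝ) + 1)) ∧
    II S K ⊆ ⋃ p ∈ F, ball p.1 p.2}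

theorem isOpen_OO {S : Set ℂ} (hS : IsCompact S) (s : ℝ) (n : ℕ) :
    IsOpen (OO S s n : Set (ι → NonemptyCompacts ℂ)) := by
  have h1 : (OO S s n : Set (ι → NonemptyCompacts ℂ)) =
      ⋃ F : Finset (ℂ × ℝ), ⋃ _ : (∀ p ∈ F, 0 < p.2) ∧ ∑ p ∈ F, p.2 ^ s < 1 / ((n : ℝ) + 1),
        {K : ι → NonemptyCompacts ℂ | II S K ⊆ ⋃ p ∈ F, ball p.1 p.2} := by
    ext K
    simp only [OO, mem_ofPred_eq, mem_iUnion, exists_prop]
  rw [h1]
  exact isOpen_iUnion fun F => isOpen_iUnion fun _ =>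
    isOpen_II_sub hS (isOpen_biUnion fun p _ => isOpen_ball)

theorem ediam_ball_le (x : ℂ) (ρ : ℝ) : ediam (ball x ρ) ≤ ENNReal.ofReal (2 * ρ) := by
  refine ediam_le fun y hy z hz => ?_
  rw [edist_dist]
  apply ENNReal.ofReal_le_ofReal
  have h1 := mem_ball.mp hy
  have h2 := mem_ball.mp hz
  have h3 := dist_triangle_right y z x
  linarith

theorem dimH_le_of_OO {S : Set ℂ} {s : ℝ} (hs : 0 < s) {K : ι → NonemptyCompacts ℂ}
    (h : ∀ n, K ∈ OO S s n) : dimH (II S K) ≤ ENNReal.ofReal s := by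
  by_contra hcon
  rw [not_le] at hcon
  have h0 := R280.HC.C0H.main ℂ s hs _ hcon
  obtain ⟨hC1, hC2, -, hC4⟩ := R280.HC.C0.main ℂ s hs
  have h1 : ∀ n : ℕ, R280.HC.cont s (II S K) ≤ ENNReal.ofReal (2 ^ s * (1 / ((n : ℝ) + 1))) := by
    intro n
    obtain ⟨F, ⟨hF1, hF2⟩, hF3⟩ := h n
    refine (hC1 _ _ hF3).trans ((hC4 (ℂ × ℝ) F (fun p => ball p.1 p.2)).trans ?_)
    have h2 : ∀ p ∈ F, R280.HC.cont s (ball p.1 p.2) ≤ ENNReal.ofReal ((2 * p.2) ^ s) := by
      intro p hp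
      refine (hC2 _).trans ?_
      refine (ENNReal.rpow_le_rpow (ediam_ball_le p.1 p.2) hs.le).trans ?_
      rw [ENNReal.ofReal_rpow_of_nonneg (by have := hF1 p hp; positivity) hs.le]
    refine (Finset.sum_le_sum h2).trans ?_
    rw [← ENNReal.ofReal_sum_of_nonneg (fun p hp => by have := hF1 p hp; positivity)]
    apply ENNReal.ofReal_le_ofReal
    have h3 : ∑ p ∈ F, (2 * p.2) ^ s = 2 ^ s * ∑ p ∈ F, p.2 ^ s := by
      rw [Finset.mul_sum]
      exact Finset.sum_congr rfl fun p hp => Real.mul_rpow (by norm_num) (hF1 p hp).le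
    rw [h3]
    exact mul_le_mul_of_nonneg_left hF2.le (by positivity)
  have h4 : Tendsto (fun n : ℕ => ENNReal.ofReal (2 ^ s * (1 / ((n : ℝ) + 1)))) atTop (𝓝 0) := by
    have h5 : Tendsto (fun n : ℕ => 2 ^ s * (1 / ((n : ℝ) + 1))) atTop (𝓝 0) := by
      have := (tendsto_one_div_add_atTop_nhds_zero_nat (𝕜 := ℝ)).const_mul (2 ^ s)
      rwa [mul_zero] at this
    have h6 := ENNReal.tendsto_ofReal h5
    rwa [ENNReal.ofReal_zero] at h6
  have h7 := ge_of_tendsto' h4 h1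
  exact absurd h7 (not_le.mpr h0)

theorem OO_of_dimH_lt {S : Set ℂ} (hS : IsCompact S) {s : ℝ} (hs : 0 < s)
    {K : ι → NonemptyCompacts ℂ} (h : dimH (II S K) < ENNReal.ofReal s) (n : ℕ) :
    K ∈ OO S s n := by
  by_contra hcon
  have hc : IsCompact (II S K) := hS.inter_right (isClosed_iInter fun i => (K i).isCompact.isClosed)
  have h1 : ENNReal.ofReal s ≤ dimH (II S K) := by
    refine H389R2.Dim.le_dimH_of_good hs (c := 1 / ((n : ℝ) + 1)) (by positivity) hc ?_
    intro δ hδ F hF hcov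
    by_contra h2
    rw [not_le] at h2
    exact hcon ⟨F, ⟨fun p hp => hδ.trans_le (hF p hp), h2⟩, hcov⟩
  exact absurd h (not_lt.mpr h1)

theorem II_iUnion (T : ℕ → Set ℂ) (K : ι → NonemptyCompacts ℂ) :
    II (⋃ n, T n) K = ⋃ n, II (T n) K := by
  unfold II
  rw [iUnion_inter]

variable [MeasurableSpace (NonemptyCompacts ℂ)] [BorelSpace (NonemptyCompacts ℂ)] [Countable ι]

theorem measurableSet_dim_compact {S : Set ℂ} (hS : IsCompact S) (a : ℝ≥0∞) :
    MeasurableSet {K : ι → NonemptyCompacts ℂ | dimH (II S K) ≤ a} := by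
  have h1 : {K : ι → NonemptyCompacts ℂ | dimH (II S K) ≤ a} =
      ⋂ s : ℚ, ⋂ _ : 0 < (s : ℝ) ∧ a < ENNReal.ofReal s, ⋂ n : ℕ, OO S (s : ℝ) n := by
    ext K
    simp only [mem_ofPred_eq, mem_iInter]
    constructor
    · intro h s hs n
      exact OO_of_dimH_lt hS hs.1 (h.trans_lt hs.2) n
    · intro h
      by_contra hcon
      rw [not_le] at hcon
      obtain ⟨q, hq0, hq1, hq2⟩ := ENNReal.lt_iff_exists_rat_btwn.mp hcon
      have hq3 : 0 < (q : ℝ) := by
        by_contra h5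
        have : ENNReal.ofReal (q : ℝ) = 0 := ENNReal.ofReal_of_nonpos (not_lt.mp h5)
        have h6 : a < ENNReal.ofReal (q : ℝ) := hq1
        rw [this] at h6
        exact not_lt_zero h6
      have h7 := dimH_le_of_OO hq3 (fun n => h q ⟨hq3, hq1⟩ n)
      exact absurd hq2 (not_lt.mpr h7)
  rw [h1]
  refine MeasurableSet.iInter fun s => MeasurableSet.iInter fun _ => MeasurableSet.iInter fun n => ?_
  exact (isOpen_OO hS s n).measurableSet

/-- measurability of the dimension of the common points -/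
theorem measurableSet_dim {S : Set ℂ} (hS : IsSigmaCompact S) (a : ℝ≥0∞) :
    MeasurableSet {K : ι → NonemptyCompacts ℂ | dimH (II S K) ≤ a} := by
  obtain ⟨T, hT, rfl⟩ := hS
  have h1 : {K : ι → NonemptyCompacts ℂ | dimH (II (⋃ n, T n) K) ≤ a} =
      ⋂ n, {K : ι → NonemptyCompacts ℂ | dimH (II (T n) K) ≤ a} := by
    ext K
    simp only [mem_ofPred_eq, mem_iInter, II_iUnion, dimH_iUnion, iSup_le_iff]
  rw [h1]
  exact MeasurableSet.iInter fun n => measurableSet_dim_compact (hT n) a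

/-- measurability of the emptiness of the set of common points -/
theorem measurableSet_empty {S : Set ℂ} (hS : IsSigmaCompact S) :
    MeasurableSet {K : ι → NonemptyCompacts ℂ | II S K = ∅} := by
  obtain ⟨T, hT, rfl⟩ := hS
  have h1 : {K : ι → NonemptyCompacts ℂ | II (⋃ n, T n) K = ∅} =
      ⋂ n, {K : ι → NonemptyCompacts ℂ | II (T n) K ⊆ ∅} := by
    ext K
    simp only [mem_ofPred_eq, mem_iInter, II_iUnion, iUnion_eq_empty, subset_empty_iff]
  rw [h1]
  exact MeasurableSet.iInter fun n => (isOpen_II_sub (hT n) isOpen_empty).measurableSet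

end Pool.Agent.Run7.h885.FS
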