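import Pool.Agent.Run7.h885.FS.Energy

/-!
Random compact sets and fixed sets: the second moment method.
-/

namespace Pool.Agent.Run7.h885.FS

open MeasureTheory Set Metric Filter Topology TopologicalSpace
open scoped ENNReal NNReal


/-- the distance from a point to a compact set -/
noncomputable def hd (z : ℂ) (K : NonemptyCompacts ℂ) : ℝ := infDist z (K : Set ℂ)

theorem continuous_hd : Continuous fun p : ℂ × NonemptyCompacts ℂ => hd p.1 p.2 :=
  lipschitz_infDist.continuous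

/-- the points at distance at most `r` from `K` -/
def Zr (r : ℝ) (K : NonemptyCompacts ℂ) : Set ℂ := {z | hd z K ≤ r}

theorem mem_Zr {r : ℝ} {K : NonemptyCompacts ℂ} {z : ℂ} : z ∈ Zr r K ↔ hd z K ≤ r := Iff.rfl

theorem isClosed_Zr (r : ℝ) (K : NonemptyCompacts ℂ) : IsClosed (Zr r K) :=
  isClosed_le (Continuous.comp (g := fun p : ℂ × NonemptyCompacts ℂ => hd p.1 p.2)
      (f := fun z : ℂ => (z, K)) continuous_hd (by fun_prop)) continuous_const

/-- pairs of points near the set -/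
def TT (r : ℝ) : Set (NonemptyCompacts ℂ × (ℂ × ℂ)) := {p | hd p.2.1 p.1 ≤ r ∧ hd p.2.2 p.1 ≤ r}

theorem mem_TT (r : ℝ) (K : NonemptyCompacts ℂ) (z w : ℂ) :
    (K, (z, w)) ∈ TT r ↔ hd z K ≤ r ∧ hd w K ≤ r := by
  rw [TT, mem_ofPred_eq]

theorem isClosed_TT (r : ℝ) : IsClosed (TT r) := by
  have h2 : Continuous fun p : NonemptyCompacts ℂ × (ℂ × ℂ) => hd p.2.1 p.1 :=
    Continuous.comp (g := fun p : ℂ × NonemptyCompacts ℂ => hd p.1 p.2)
      (f := fun p : NonemptyCompacts ℂ × (ℂ × ℂ) => (p.2.1, p.1)) continuous_hd (by fun_prop)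
  have h3 : Continuous fun p : NonemptyCompacts ℂ × (ℂ × ℂ) => hd p.2.2 p.1 :=
    Continuous.comp (g := fun p : ℂ × NonemptyCompacts ℂ => hd p.1 p.2)
      (f := fun p : NonemptyCompacts ℂ × (ℂ × ℂ) => (p.2.2, p.1)) continuous_hd (by fun_prop)
  exact (isClosed_le h2 continuous_const).inter (isClosed_le h3 continuous_const)

/-- the integrand of the local energy -/
noncomputable def gg (t : ℝ) (x : NonemptyCompacts ℂ × (ℂ × ℂ)) : ℝ≥0∞ :=
  (edist x.2.1 x.2.2) ^ (-t)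

/-- the integrand of the local energy -/
noncomputable def ff (t r : ℝ) (x : NonemptyCompacts ℂ × (ℂ × ℂ)) : ℝ≥0∞ :=
  (TT r).indicator (gg t) x

theorem ff_mem {t r : ℝ} {K : NonemptyCompacts ℂ} {z w : ℂ} (h1 : hd z K ≤ r) (h2 : hd w K ≤ r) :
    ff t r (K, (z, w)) = (edist z w) ^ (-t) := by
  have h3 : (K, (z, w)) ∈ TT r := (mem_TT r K z w).mpr ⟨h1, h2⟩
  unfold ff
  rw [indicator_of_mem h3, gg]

theorem ff_not {t r : ℝ} {K : NonemptyCompacts ℂ} {z w : ℂ} (h : ¬ (hd z K ≤ r ∧ hd w K ≤ r)) :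
    ff t r (K, (z, w)) = 0 := by
  have h3 : (K, (z, w)) ∉ TT r := fun h3 => h ((mem_TT r K z w).mp h3)
  unfold ff
  rw [indicator_of_notMem h3]

variable [MeasurableSpace (NonemptyCompacts ℂ)] [BorelSpace (NonemptyCompacts ℂ)]

theorem measurable_ff (t r : ℝ) : Measurable (ff t r) := by
  have h1 : Measurable (gg t) := by
    unfold gg
    fun_prop
  exact h1.indicator (isClosed_TT r).measurableSet

theorem En_Zr (t r : ℝ) (ν : Measure ℂ) [IsFiniteMeasure ν] (K : NonemptyCompacts ℂ) :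
    En t ν (Zr r K) = ∫⁻ p, ff t r (K, p) ∂(ν.prod ν) := by
  have hm : MeasurableSet (Zr r K) := (isClosed_Zr r K).measurableSet
  have hmf : Measurable fun p => ff t r (K, p) :=
    (measurable_ff t r).comp measurable_prodMk_left
  rw [lintegral_prod _ hmf.aemeasurable]
  unfold En
  rw [← lintegral_indicator hm]
  refine lintegral_congr fun z => ?_
  by_cases hz : z ∈ Zr r K
  · rw [indicator_of_mem hz, ← lintegral_indicator hm]
    refine lintegral_congr fun w => ?_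
    by_cases hw : w ∈ Zr r K
    · rw [indicator_of_mem hw, ff_mem (mem_Zr.mp hz) (mem_Zr.mp hw)]
    · rw [indicator_of_notMem hw, ff_not (fun h => hw (mem_Zr.mpr h.2))]
  · rw [indicator_of_notMem hz]
    symm
    have h0 : ∀ w, ff t r (K, (z, w)) = 0 := fun w => ff_not (fun h => hz (mem_Zr.mpr h.1))
    simp_rw [h0]
    exact lintegral_zero

theorem measurable_En_Zr (t r : ℝ) (ν : Measure ℂ) [IsFiniteMeasure ν] :
    Measurable fun K : NonemptyCompacts ℂ => En t ν (Zr r K) := by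
  simp_rw [En_Zr]
  exact (measurable_ff t r).lintegral_prod_right'

theorem isClosed_RR (r : ℝ) : IsClosed {p : ℂ × NonemptyCompacts ℂ | hd p.1 p.2 ≤ r} :=
  isClosed_le continuous_hd continuous_const

theorem measurable_nu_Zr (r : ℝ) (ν : Measure ℂ) [IsFiniteMeasure ν] :
    Measurable fun K : NonemptyCompacts ℂ => ν (Zr r K) :=
  measurable_measure_prodMk_right (isClosed_RR r).measurableSet

theorem first_moment (r : ℝ) (ν : Measure ℂ) [IsFiniteMeasure ν]
    (μ : Measure (NonemptyCompacts ℂ)) [IsFiniteMeasure μ] :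
    ∫⁻ K, ν (Zr r K) ∂μ = ∫⁻ z, μ {K | hd z K ≤ r} ∂ν := by
  have h2 := Measure.prod_apply (μ := ν) (ν := μ) (isClosed_RR r).measurableSet
  have h3 := Measure.prod_apply_symm (μ := ν) (ν := μ) (isClosed_RR r).measurableSet
  exact h3.symm.trans h2

theorem isClosed_hd2 (r : ℝ) (z w : ℂ) :
    IsClosed {K : NonemptyCompacts ℂ | hd z K ≤ r ∧ hd w K ≤ r} := by
  have h2 : ∀ z, Continuous fun K : NonemptyCompacts ℂ => hd z K := fun z =>
    Continuous.comp (g := fun p : ℂ × NonemptyCompacts ℂ => hd p.1 p.2)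
      (f := fun K : NonemptyCompacts ℂ => (z, K)) continuous_hd (by fun_prop)
  exact (isClosed_le (h2 z) continuous_const).inter (isClosed_le (h2 w) continuous_const)

theorem ff_int (t r : ℝ) (μ : Measure (NonemptyCompacts ℂ)) (z w : ℂ) :
    ∫⁻ K, ff t r (K, (z, w)) ∂μ = (edist z w) ^ (-t) * μ {K | hd z K ≤ r ∧ hd w K ≤ r} := by
  rw [← lintegral_indicator_const (isClosed_hd2 r z w).measurableSet]
  refine lintegral_congr fun K => ?_
  by_cases h : hd z K ≤ r ∧ hd w K ≤ r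
  · rw [ff_mem h.1 h.2, indicator_of_mem]
    exact h
  · rw [ff_not h, indicator_of_notMem]
    exact h

theorem En_moment (t r : ℝ) (ν : Measure ℂ) [IsFiniteMeasure ν]
    (μ : Measure (NonemptyCompacts ℂ)) [IsFiniteMeasure μ] :
    ∫⁻ K, En t ν (Zr r K) ∂μ = ∫⁻ z, ∫⁻ w, (edist z w) ^ (-t) *
      μ {K | hd z K ≤ r ∧ hd w K ≤ r} ∂ν ∂ν := by
  simp_rw [En_Zr]
  have h1 : ∫⁻ K, ∫⁻ p, ff t r (K, p) ∂(ν.prod ν) ∂μ = ∫⁻ p, ∫⁻ K, ff t r (K, p) ∂μ ∂(ν.prod ν) :=
    lintegral_lintegral_swap (f := fun K p => ff t r (K, p)) (measurable_ff t r).aemeasurable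
  rw [h1]
  have hm : Measurable fun p : ℂ × ℂ => ∫⁻ K, ff t r (K, p) ∂μ :=
    (measurable_ff t r).lintegral_prod_left'
  rw [lintegral_prod _ hm.aemeasurable]
  simp_rw [ff_int]

theorem rpow_split {t q : ℝ} (ht : 0 ≤ t) (hq : 0 ≤ q) {x : ℝ≥0∞} (hx : x ≠ ⊤) :
    x ^ (-t) * x ^ (-q) = x ^ (-(q + t)) := by
  rw [ENNReal.rpow_neg, ENNReal.rpow_neg, ENNReal.rpow_neg, add_comm q t,
    ENNReal.rpow_add_of_nonneg t q ht hq, ENNReal.mul_inv]
  · right; exact ENNReal.rpow_ne_top_of_nonneg hq hx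
  · left; exact ENNReal.rpow_ne_top_of_nonneg ht hx

theorem En_moment_le {t r q D : ℝ} (ht : 0 ≤ t) (hq : 0 ≤ q) (ν : Measure ℂ) [IsFiniteMeasure ν]
    (μ : Measure (NonemptyCompacts ℂ)) [IsFiniteMeasure μ] {S : Set ℂ} (hS : ν Sᶜ = 0)
    (H : ∀ z ∈ S, ∀ w ∈ S, μ {K | hd z K ≤ r ∧ hd w K ≤ r} ≤
      ENNReal.ofReal D * (edist z w) ^ (-q)) :
    ∫⁻ K, En t ν (Zr r K) ∂μ ≤ ENNReal.ofReal D * energy (q + t) ν := by
  rw [En_moment]
  unfold energy
  have hae : ∀ᵐ z ∂ν, z ∈ S := by rw [ae_iff]; exact hS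
  rw [← lintegral_const_mul' _ _ ENNReal.ofReal_ne_top]
  refine lintegral_mono_ae ?_
  filter_upwards [hae] with z hz
  rw [← lintegral_const_mul' _ _ ENNReal.ofReal_ne_top]
  refine lintegral_mono_ae ?_
  filter_upwards [hae] with w hw
  rw [← rpow_split ht hq (edist_ne_top z w)]
  calc (edist z w) ^ (-t) * _ ≤ (edist z w) ^ (-t) *
        (ENNReal.ofReal D * (edist z w) ^ (-q)) := by gcongr; exact H z hz w hw
    _ = _ := by ring

theorem En_zero (ν : Measure ℂ) (A : Set ℂ) : En 0 ν A = ν A ^ 2 := by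
  unfold En
  simp only [neg_zero, ENNReal.rpow_zero, lintegral_const, Measure.restrict_apply,
    MeasurableSet.univ, univ_inter, one_mul]
  ring

/-- Cauchy-Schwarz on an event -/
theorem cs_event {Ω : Type*} [MeasurableSpace Ω] (μ : Measure Ω) {Y : Ω → ℝ≥0∞}
    (hY : Measurable Y) {A : Set Ω} (hA : MeasurableSet A) :
    (∫⁻ x in A, Y x ∂μ) ^ 2 ≤ (∫⁻ x, Y x ^ 2 ∂μ) * μ A := by
  have h1 := ENNReal.lintegral_mul_le_Lp_mul_Lq μ Real.HolderConjugate.two_two
    hY.aemeasurable (measurable_one.indicator hA : Measurable (A.indicator 1)).aemeasurable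
      (f := Y) (g := A.indicator 1)
  have h2 : ∫⁻ a, (Y * A.indicator (1 : Ω → ℝ≥0∞)) a ∂μ = ∫⁻ x in A, Y x ∂μ := by
    rw [← lintegral_indicator hA]
    refine lintegral_congr fun x => ?_
    by_cases hx : x ∈ A <;> simp [hx]
  have h3 : ∫⁻ a, (A.indicator (1 : Ω → ℝ≥0∞) a) ^ (2 : ℝ) ∂μ = μ A := by
    rw [← lintegral_indicator_one hA]
    refine lintegral_congr fun x => ?_
    by_cases hx : x ∈ A <;> simp [hx]
  rw [h2, h3] at h1
  calc (∫⁻ x in A, Y x ∂μ) ^ 2 ≤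
        ((∫⁻ a, Y a ^ (2 : ℝ) ∂μ) ^ (1 / (2 : ℝ)) * μ A ^ (1 / (2 : ℝ))) ^ 2 := by gcongr
    _ = (∫⁻ x, Y x ^ 2 ∂μ) * μ A := by
        rw [mul_pow, ← ENNReal.rpow_natCast, ← ENNReal.rpow_natCast, ← ENNReal.rpow_mul,
          ← ENNReal.rpow_mul]
        norm_num

end Pool.Agent.Run7.h885.FS
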